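import Pool.Agent.Work.MP_f82ddf_nt.Core

/-!
# Smooth hypersurfaces by good reduction
-/

open MvPolynomial

namespace Pool.Agent.Work.MP_f82ddf_nt

/-- A valuation subring above `p` of a field of characteristic zero. -/
theorem exists_valuationSubring (Ω : Type*) [Field Ω] [CharZero Ω] (p : ℕ) (hp : 2 ≤ p) :
    ∃ B : ValuationSubring Ω, (∀ x : Ω, IsIntegral ℤ x → x ∈ B) ∧ B.valuation (p : Ω) < 1 := by
  have hI : Ideal.span {((p : ℕ) : (integralClosure ℤ Ω).toSubring)} ≠ ⊤ := by
    intro h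
    have h1 : (1 : (integralClosure ℤ Ω).toSubring) ∈
        Ideal.span {((p : ℕ) : (integralClosure ℤ Ω).toSubring)} := by
      rw [h]
      exact Submodule.mem_top
    rw [Ideal.mem_span_singleton'] at h1
    obtain ⟨a, ha⟩ := h1
    have ha2 : (a : Ω) * (p : Ω) = 1 := by
      have := congrArg Subtype.val ha
      simpa using this
    have hint : IsIntegral ℤ (a : Ω) := a.2
    have hp0 : (p : Ω) ≠ 0 := by
      intro h0
      rw [h0, mul_zero] at ha2
      exact zero_ne_one ha2
    have ha3 : (a : Ω) = algebraMap ℚ Ω ((p : ℚ)⁻¹) := by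
      rw [map_inv₀, map_natCast]
      exact eq_inv_of_mul_eq_one_left ha2
    rw [ha3] at hint
    have hint2 : IsIntegral ℤ ((p : ℚ)⁻¹) :=
      (isIntegral_algebraMap_iff (algebraMap ℚ Ω).injective).1 hint
    obtain ⟨y, hy⟩ := IsIntegrallyClosed.isIntegral_iff.1 hint2
    have hpq : (p : ℚ) ≠ 0 := by
      have : (0 : ℚ) < p := by exact_mod_cast (by omega : 0 < p)
      exact this.ne'
    have h2 : (y : ℚ) * (p : ℚ) = 1 := by
      have h3 : (y : ℚ) = (p : ℚ)⁻¹ := by simpa using hy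
      rw [h3, inv_mul_cancel₀ hpq]
    have h4 : y * (p : ℤ) = 1 := by exact_mod_cast h2
    have h5 : (p : ℤ) ∣ 1 := Dvd.intro_left y h4
    have h6 := Int.le_of_dvd one_pos h5
    omega
  obtain ⟨B, hB1, hB2⟩ := Ideal.image_subset_nonunits_valuationSubring _ hI
  refine ⟨B, fun x hx => hB1 hx, ?_⟩
  have h1 : (p : Ω) ∈ B.nonunits := by
    apply hB2
    exact ⟨((p : ℕ) : (integralClosure ℤ Ω).toSubring), Ideal.mem_span_singleton_self _, by simp⟩
  exact h1

section val

variable {Ω : Type*} [Field Ω] (B : ValuationSubring Ω)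

theorem val_nat_le (m : ℕ) : B.valuation (m : Ω) ≤ 1 :=
  (B.valuation_le_one_iff _).2 (natCast_mem B m)

theorem val_nat_eq {p : ℕ} (hp : B.valuation (p : Ω) < 1) {m : ℕ} (hm : Nat.Coprime m p) :
    B.valuation (m : Ω) = 1 := by
  refine le_antisymm (val_nat_le B m) ?_
  by_contra hlt
  rw [not_le] at hlt
  have hbez : ((m : ℤ) * m.gcdA p + (p : ℤ) * m.gcdB p) = 1 := by
    rw [← Nat.gcd_eq_gcd_ab, hm.gcd_eq_one]
    rfl
  have h1 : (m : Ω) * (m.gcdA p : ℤ) + (p : Ω) * (m.gcdB p : ℤ) = 1 := by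
    have := congrArg (Int.cast : ℤ → Ω) hbez
    push_cast at this
    exact this
  have hint : ∀ z : ℤ, B.valuation (z : Ω) ≤ 1 := fun z =>
    (B.valuation_le_one_iff _).2 (intCast_mem B z)
  have h2 : B.valuation ((m : Ω) * (m.gcdA p : ℤ)) < 1 := by
    rw [map_mul]
    exact mul_lt_one_of_lt_of_le hlt (hint _)
  have h3 : B.valuation ((p : Ω) * (m.gcdB p : ℤ)) < 1 := by
    rw [map_mul]
    exact mul_lt_one_of_lt_of_le hp (hint _)
  have h4 := B.valuation.map_add_lt h2 h3
  rw [h1, map_one] at h4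
  exact lt_irrefl _ h4

/-- The key computation: the special form is smooth modulo the maximal ideal. -/
theorem pair_lt_one {p c : ℕ} (hc : 2 ≤ c) (hp : B.valuation (p : Ω) < 1)
    (hpc : Nat.Coprime (c ^ 2 - 1) p) {x y : Ω} (hx : B.valuation x ≤ 1)
    (hy : B.valuation y ≤ 1)
    (h1 : B.valuation (c * x ^ (c - 1) * y + y ^ c) < 1)
    (h2 : B.valuation (x ^ c + c * y ^ (c - 1) * x) < 1) :
    B.valuation x < 1 ∧ B.valuation y < 1 := by
  have hc0 : c ≠ 0 := by omega
  have hc1 : c - 1 ≠ 0 := by omega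
  have hsub : ∀ a b : Ω, B.valuation (a + b) < 1 → B.valuation a < 1 → B.valuation b < 1 := by
    intro a b hab ha
    have h := B.valuation.map_sub_lt hab ha
    rwa [add_sub_cancel_left] at h
  have key : ∀ a b : Ω, B.valuation a ≤ 1 → B.valuation b < 1 →
      B.valuation (c * b ^ (c - 1) * a) < 1 := by
    intro a b ha hb
    rw [map_mul, map_mul, map_pow]
    have e1 : B.valuation b ^ (c - 1) < 1 := pow_lt_one₀ zero_le hb hc1
    have e2 : B.valuation (c : Ω) * B.valuation b ^ (c - 1) < 1 := by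
      rw [mul_comm]
      exact mul_lt_one_of_lt_of_le e1 (val_nat_le B c)
    exact mul_lt_one_of_lt_of_le e2 ha
  rcases lt_or_eq_of_le hx with hx' | hx' <;> rcases lt_or_eq_of_le hy with hy' | hy'
  · exact ⟨hx', hy'⟩
  · exfalso
    have h3 := hsub _ _ h1 (key y x hy hx')
    rw [map_pow, hy', one_pow] at h3
    exact lt_irrefl _ h3
  · exfalso
    rw [add_comm] at h2
    have h3 := hsub _ _ h2 (key x y hx hy')
    rw [map_pow, hx', one_pow] at h3
    exact lt_irrefl _ h3
  · exfalso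
    have e1 : (c : Ω) * x ^ (c - 1) * y + y ^ c = (c * x ^ (c - 1) + y ^ (c - 1)) * y := by
      have : y ^ c = y ^ (c - 1) * y := by rw [← pow_succ, Nat.sub_add_cancel (by omega)]
      rw [this]
      ring
    have e2 : x ^ c + (c : Ω) * y ^ (c - 1) * x = (x ^ (c - 1) + c * y ^ (c - 1)) * x := by
      have : x ^ c = x ^ (c - 1) * x := by rw [← pow_succ, Nat.sub_add_cancel (by omega)]
      rw [this]
      ring
    rw [e1, map_mul, hy', mul_one] at h1
    rw [e2, map_mul, hx', mul_one] at h2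
    have h3 : B.valuation ((c : Ω) * (x ^ (c - 1) + c * y ^ (c - 1))) < 1 := by
      rw [map_mul, mul_comm]
      exact mul_lt_one_of_lt_of_le h2 (val_nat_le B c)
    have h4 := B.valuation.map_sub_lt h3 h1
    have e3 : (c : Ω) * (x ^ (c - 1) + c * y ^ (c - 1)) - (c * x ^ (c - 1) + y ^ (c - 1)) =
        ((c ^ 2 - 1 : ℕ) : Ω) * y ^ (c - 1) := by
      have : (1 : ℕ) ≤ c ^ 2 := Nat.one_le_pow _ _ (by omega)
      rw [Nat.cast_sub this]
      push_cast
      ring
    rw [e3, map_mul, map_pow, hy', one_pow, mul_one, val_nat_eq B hp hpc] at h4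
    exact lt_irrefl _ h4

end val

/-- The `a`-th variable of the first half. -/
def lo (M : ℕ) (a : Fin (M + 1)) : Fin (2 * M + 1 + 1) := ⟨a, by omega⟩

/-- The `a`-th variable of the second half. -/
def hi (M : ℕ) (a : Fin (M + 1)) : Fin (2 * M + 1 + 1) := ⟨M + 1 + a, by omega⟩

theorem lo_or_hi (M : ℕ) (i : Fin (2 * M + 1 + 1)) : (∃ a, i = lo M a) ∨ ∃ a, i = hi M a := by
  by_cases h : (i : ℕ) < M + 1
  · exact Or.inl ⟨⟨i, h⟩, Fin.ext rfl⟩
  · refine Or.inr ⟨⟨i - (M + 1), by omega⟩, Fin.ext ?_⟩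
    simp only [hi]
    omega

theorem lo_inj {M : ℕ} {a b : Fin (M + 1)} (h : lo M a = lo M b) : a = b := by
  have := congrArg Fin.val h
  simp only [lo] at this
  exact Fin.ext this

theorem hi_inj {M : ℕ} {a b : Fin (M + 1)} (h : hi M a = hi M b) : a = b := by
  have := congrArg Fin.val h
  simp only [hi] at this
  exact Fin.ext (by omega)

theorem lo_ne_hi {M : ℕ} {a b : Fin (M + 1)} : lo M a ≠ hi M b := by
  intro h
  have := congrArg Fin.val h
  simp only [lo, hi] at this
  omega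

/-- The form `∑ (x_a ^ c y_a + y_a ^ c x_a)`. -/
noncomputable def pairForm (K : Type*) [Field K] (M c : ℕ) :
    MvPolynomial (Fin (2 * M + 1 + 1)) K :=
  ∑ a : Fin (M + 1), (X (lo M a) ^ c * X (hi M a) + X (hi M a) ^ c * X (lo M a))

theorem pairForm_homogeneous (K : Type*) [Field K] (M c : ℕ) :
    (pairForm K M c).IsHomogeneous (c + 1) := by
  apply IsHomogeneous.sum
  intro a _
  apply IsHomogeneous.add
  · have := ((isHomogeneous_X K (lo M a)).pow c).mul (isHomogeneous_X K (hi M a))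
    rwa [one_mul] at this
  · have := ((isHomogeneous_X K (hi M a)).pow c).mul (isHomogeneous_X K (lo M a))
    rwa [one_mul] at this

theorem pderiv_lo (K : Type*) [Field K] (M c : ℕ) (a : Fin (M + 1)) :
    pderiv (lo M a) (pairForm K M c) =
      (c : MvPolynomial (Fin (2 * M + 1 + 1)) K) * X (lo M a) ^ (c - 1) * X (hi M a) +
        X (hi M a) ^ c := by
  classical
  unfold pairForm
  rw [map_sum, Finset.sum_eq_single a]
  · rw [map_add, pderiv_mul, pderiv_mul, pderiv_pow, pderiv_pow, pderiv_X_self,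
      pderiv_X_of_ne (Ne.symm lo_ne_hi)]
    ring
  · intro b _ hb
    have h1 : lo M b ≠ lo M a := fun h => hb (lo_inj h)
    rw [map_add, pderiv_mul, pderiv_mul, pderiv_pow, pderiv_pow,
      pderiv_X_of_ne (Ne.symm lo_ne_hi), pderiv_X_of_ne h1]
    ring
  · intro h
    exact absurd (Finset.mem_univ _) h

theorem pderiv_hi (K : Type*) [Field K] (M c : ℕ) (a : Fin (M + 1)) :
    pderiv (hi M a) (pairForm K M c) =
      X (lo M a) ^ c +
        (c : MvPolynomial (Fin (2 * M + 1 + 1)) K) * X (hi M a) ^ (c - 1) * X (lo M a) := by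
  classical
  unfold pairForm
  rw [map_sum, Finset.sum_eq_single a]
  · rw [map_add, pderiv_mul, pderiv_mul, pderiv_pow, pderiv_pow, pderiv_X_self,
      pderiv_X_of_ne lo_ne_hi]
    ring
  · intro b _ hb
    have h1 : hi M b ≠ hi M a := fun h => hb (hi_inj h)
    rw [map_add, pderiv_mul, pderiv_mul, pderiv_pow, pderiv_pow,
      pderiv_X_of_ne lo_ne_hi, pderiv_X_of_ne h1]
    ring
  · intro h
    exact absurd (Finset.mem_univ _) h

/-- Smoothness by good reduction, over any extension. -/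
theorem no_singular {K : Type*} [Field K] {Ω : Type*} [Field Ω] [CharZero Ω] [Algebra K Ω]
    (M c : ℕ) (hc : 2 ≤ c) (W : MvPolynomial (Fin (2 * M + 1 + 1)) K)
    (hW : W.IsHomogeneous (c + 1)) (y : ℤ) (hy0 : y ≠ 0)
    (hy : ∀ m ∈ W.support, IsIntegral ℤ (y • coeff m W)) (p : ℕ)
    (hple : c ^ 2 + y.natAbs + 1 ≤ p) (hpp : p.Prime) (l : ℕ) (hl : 1 ≤ l)
    (v : Fin (2 * M + 1 + 1) → Ω) (hv : v ≠ 0)
    (hcon : ∀ i, aeval v (pderiv i (pairForm K M c + C ((p : K) ^ l) * W)) = 0) : False := by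
  classical
  obtain ⟨B, hBint, hBp⟩ := exists_valuationSubring Ω p hpp.two_le
  have hc2 : 1 < c ^ 2 := Nat.one_lt_pow (by omega) (by omega)
  have hcop : Nat.Coprime (c ^ 2 - 1) p := by
    refine (hpp.coprime_iff_not_dvd.2 fun h => ?_).symm
    have := Nat.le_of_dvd (by omega) h
    omega
  have hcopy : Nat.Coprime y.natAbs p := by
    refine (hpp.coprime_iff_not_dvd.2 fun h => ?_).symm
    have := Nat.le_of_dvd (Int.natAbs_pos.2 hy0) h
    omega
  have hvy : B.valuation (algebraMap K Ω (y : K)) = 1 := by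
    have h1 := val_nat_eq B hBp hcopy
    rcases Int.natAbs_eq y with h | h
    · rw [h]
      simpa using h1
    · rw [h]
      simpa [Valuation.map_neg] using h1
  have hcoef : ∀ m, B.valuation (algebraMap K Ω (coeff m W)) ≤ 1 := by
    intro m
    by_cases hm : m ∈ W.support
    · have h1 := hy _ hm
      have h2 : IsIntegral ℤ (algebraMap K Ω (y • coeff m W)) := h1.map (algebraMap K Ω).toIntAlgHom
      have h3 := (B.valuation_le_one_iff _).2 (hBint _ h2)
      rw [zsmul_eq_mul, map_mul, map_mul, hvy, one_mul] at h3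
      exact h3
    · rw [notMem_support_iff.1 hm, map_zero, map_zero]
      exact zero_le
  obtain ⟨i₀, hi₀⟩ := Finite.exists_max fun i => B.valuation (v i)
  have hvi₀ : v i₀ ≠ 0 := by
    intro h0
    apply hv
    funext i
    have := hi₀ i
    rw [h0, map_zero] at this
    exact (map_eq_zero B.valuation).1 (le_antisymm this zero_le)
  set w : Fin (2 * M + 1 + 1) → Ω := (v i₀)⁻¹ • v with hw
  have hwi₀ : w i₀ = 1 := by
    rw [hw]
    simp [hvi₀]
  have hw1 : ∀ i, B.valuation (w i) ≤ 1 := by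
    intro i
    rw [hw]
    simp only [Pi.smul_apply, smul_eq_mul, map_mul, map_inv₀]
    have h1 : B.valuation (v i₀) ≠ 0 := (map_ne_zero _).2 hvi₀
    calc (B.valuation (v i₀))⁻¹ * B.valuation (v i) ≤ (B.valuation (v i₀))⁻¹ * B.valuation (v i₀) := by
          exact mul_le_mul_right (hi₀ i) _
      _ = 1 := inv_mul_cancel₀ h1
  have hhom : (pairForm K M c + C ((p : K) ^ l) * W).IsHomogeneous (c + 1) := by
    apply (pairForm_homogeneous K M c).add
    have := (isHomogeneous_C (Fin (2 * M + 1 + 1)) ((p : K) ^ l)).mul hW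
    rwa [zero_add] at this
  have hzero : ∀ i, aeval w (pderiv i (pairForm K M c + C ((p : K) ^ l) * W)) = 0 := by
    intro i
    have h1 := eval₂_smul_hom hhom.pderiv (algebraMap K Ω) v (v i₀)⁻¹ (F := pderiv i (pairForm K M c + C ((p : K) ^ l) * W))
    rw [aeval_def, hw, h1]
    have h2 := hcon i
    rw [aeval_def] at h2
    rw [h2, mul_zero]
  have hWB : ∀ i, B.valuation (aeval w (pderiv i W)) ≤ 1 := by
    intro i
    rw [B.valuation_le_one_iff, aeval_def, eval₂_eq']
    refine sum_mem fun m _ => mul_mem ?_ (prod_mem fun j _ => pow_mem ?_ _)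
    · rw [coeff_pderiv, map_mul]
      refine mul_mem ((B.valuation_le_one_iff _).1 (hcoef _)) ?_
      rw [map_add, map_natCast, map_one]
      exact add_mem (natCast_mem B _) (one_mem B)
    · exact (B.valuation_le_one_iff _).1 (hw1 j)
  have hsmall : ∀ i, B.valuation ((p : Ω) ^ l * aeval w (pderiv i W)) < 1 := by
    intro i
    rw [map_mul, map_pow]
    exact mul_lt_one_of_lt_of_le (pow_lt_one₀ zero_le hBp (by omega)) (hWB i)
  have hneg : ∀ a b : Ω, a + b = 0 → B.valuation b < 1 → B.valuation a < 1 := by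
    intro a b hab hb
    rw [eq_neg_of_add_eq_zero_left hab, Valuation.map_neg]
    exact hb
  have hall : ∀ a, B.valuation (w (lo M a)) < 1 ∧ B.valuation (w (hi M a)) < 1 := by
    intro a
    apply pair_lt_one B hc hBp hcop (hw1 _) (hw1 _)
    · apply hneg _ _ _ (hsmall (lo M a))
      have h1 := hzero (lo M a)
      rw [map_add, pderiv_lo, pderiv_C_mul] at h1
      simpa using h1
    · apply hneg _ _ _ (hsmall (hi M a))
      have h1 := hzero (hi M a)
      rw [map_add, pderiv_hi, pderiv_C_mul] at h1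
      simpa using h1
  rcases lo_or_hi M i₀ with ⟨a, ha⟩ | ⟨a, ha⟩
  · have h1 := (hall a).1
    rw [← ha, hwi₀, map_one] at h1
    exact lt_irrefl _ h1
  · have h1 := (hall a).2
    rw [← ha, hwi₀, map_one] at h1
    exact lt_irrefl _ h1

/-- Smoothness by good reduction. -/
theorem exists_prime_smooth {K : Type} [Field K] [NumberField K] (M c : ℕ) (hc : 2 ≤ c)
    (W : MvPolynomial (Fin (2 * M + 1 + 1)) K) (hW : W.IsHomogeneous (c + 1)) :
    ∃ p : ℕ, 2 ≤ p ∧ ∀ l, 1 ≤ l → Nonsingular (pairForm K M c + C ((p : K) ^ l) * W) := by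
  classical
  have halg : Algebra.IsAlgebraic ℤ K :=
    (IsFractionRing.comap_isAlgebraic_iff (A := ℤ) (K := ℚ) (C := K)).2 inferInstance
  obtain ⟨y, hy0, hy⟩ := Algebra.IsAlgebraic.exists_integral_multiples ℤ
    (W.support.image fun m => coeff m W)
  obtain ⟨p, hple, hpp⟩ := Nat.exists_infinite_primes (c ^ 2 + y.natAbs + 1)
  refine ⟨p, hpp.two_le, fun l hl => ?_⟩
  intro v hv _
  by_contra hcon
  push Not at hcon
  have _ : CharZero (AlgebraicClosure K) :=
    charZero_of_injective_algebraMap (algebraMap K (AlgebraicClosure K)).injective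
  exact no_singular M c hc W hW y hy0 (fun m hm => hy _ (Finset.mem_image_of_mem _ hm)) p hple hpp
    l hl v hv hcon

end Pool.Agent.Work.MP_f82ddf_nt
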