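import Pool.Agent.Work.MP_f82ddf_nt.HF.Embed

/-!
# Every projective variety lies in a smooth hypersurface which is hyperbolic if the variety is
-/

open MvPolynomial Topology Filter Set
open scoped LinearAlgebra.Projectivization

namespace Pool.Agent.Work.MP_f82ddf_nt

/-- Nonconstant entire curves in the hypersurface `sumForm` lie in the base locus. -/
theorem sumForm_curve {K : Type} [Field K] {N D c q k e : ℕ} (σ : K →+* ℂ) (τ : Fin q → ℚ)
    (hτ : GenPts D q τ) (hq : D + 3 * ((D + 1) * (D + 1)) ≤ q) (hk : q * (q - 2) < k)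
    (ρ : Fin (D + 1) ≃ Fin c × Fin (N + 1)) (m : Fin c → MvPolynomial (Fin (N + 1)) K)
    (hm : ∀ i, (m i).IsHomogeneous e) {f : ℂ → PSpace ℂ N} (hf : HolomorphicOn f univ)
    (hX : ∀ z, f z ∈ complexPoints {sumForm k τ ρ m} σ) (hne : ∃ z w, f z ≠ f w) (i : Fin c)
    (z : ℂ) : eval₂ σ (f z).rep (m i) = 0 := by
  have h1 := curve_base τ hτ hq hk ρ (fun i => map σ (m i)) (fun i => (hm i).map σ) hf (by
    intro z
    have h2 := hX z _ rfl
    rw [eval₂_sumForm] at h2
    simp only [eval_map]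
    exact h2) hne i z
  rwa [eval_map] at h1

theorem nrep_pair_tendsto {K : Type} [Field K] {N : ℕ} (σ : K →+* ℂ)
    (A W : MvPolynomial (Fin (N + 1)) K) (p : ℕ) (hp : 2 ≤ p) {dA dW : ℕ}
    (hA : A.IsHomogeneous dA) (hW : W.IsHomogeneous dW) (hdeg : dA = dW)
    (φ : ℕ → ℕ) (hφ : Tendsto φ atTop atTop)
    (𝒰 : Ultrafilter ℕ) (h𝒰 : (𝒰 : Filter ℕ) ≤ atTop) (P : ℕ → PSpace ℂ N)
    (hP : ∀ᶠ l in (𝒰 : Filter ℕ), P l ∈ complexPoints {A + C ((p : K) ^ φ l) * W} σ)
    (x : Fin (N + 1) → ℂ) (hx : x ≠ 0) (hlim : Tendsto (fun l => nrep (P l)) 𝒰 (𝓝 x)) :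
    Projectivization.mk ℂ x hx ∈ complexPoints {W} σ := by
  subst hdeg
  have hcont : ∀ Q : MvPolynomial (Fin (N + 1)) K,
      Continuous fun v : Fin (N + 1) → ℂ => eval₂ σ v Q := by
    intro Q
    have : (fun v : Fin (N + 1) → ℂ => eval₂ σ v Q) = fun v => eval v (map σ Q) := by
      funext v
      rw [eval_map]
    rw [this]
    exact MvPolynomial.continuous_eval _
  have h1 : ∀ᶠ l in (𝒰 : Filter ℕ), eval₂ σ (nrep (P l)) W =
      -eval₂ σ (nrep (P l)) A * ((p : ℂ)⁻¹) ^ φ l := by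
    filter_upwards [hP] with l hl
    have h2 := hl _ rfl
    have hhom : (A + C ((p : K) ^ φ l) * W).IsHomogeneous dA := by
      apply hA.add
      have := (isHomogeneous_C (Fin (N + 1)) ((p : K) ^ φ l)).mul hW
      rwa [zero_add] at this
    have h3 : eval₂ σ (nrep (P l)) (A + C ((p : K) ^ φ l) * W) = 0 := by
      unfold nrep
      rw [eval₂_smul_hom hhom, h2, mul_zero]
    rw [eval₂_add, eval₂_mul, eval₂_C, map_pow, map_natCast] at h3
    have hp0 : (p : ℂ) ≠ 0 := by
      have : (0 : ℝ) < p := by exact_mod_cast (by omega : 0 < p)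
      exact_mod_cast this.ne'
    have hpp : (p : ℂ) ^ φ l ≠ 0 := pow_ne_zero _ hp0
    rw [inv_pow]
    field_simp
    linear_combination h3
  have h2 : Tendsto (fun l => eval₂ σ (nrep (P l)) W) 𝒰 (𝓝 (eval₂ σ x W)) :=
    ((hcont W).tendsto _).comp hlim
  have h3 : Tendsto (fun l : ℕ => ((p : ℂ)⁻¹) ^ φ l) 𝒰 (𝓝 0) := by
    have h4 : Tendsto (fun l : ℕ => ((p : ℂ)⁻¹) ^ l) atTop (𝓝 0) := by
      apply tendsto_pow_atTop_nhds_zero_of_norm_lt_one
      rw [norm_inv, Complex.norm_natCast]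
      apply inv_lt_one_of_one_lt₀
      exact_mod_cast (by omega : 1 < p)
    exact (h4.comp hφ).mono_left h𝒰
  have h4 : Tendsto (fun l => -eval₂ σ (nrep (P l)) A * ((p : ℂ)⁻¹) ^ φ l) 𝒰
      (𝓝 (-eval₂ σ x A * 0)) :=
    (((hcont A).tendsto _).comp hlim).neg.mul h3
  rw [mul_zero] at h4
  have h5 : eval₂ σ x W = 0 := tendsto_nhds_unique h2 (h4.congr' (h1.mono fun l hl => hl.symm))
  intro F hF
  rw [mem_singleton_iff.1 hF, eval₂_rep_iff hW]
  exact h5

/-- A subvariety of a hyperbolic variety is hyperbolic (linear embedding by zero coordinates). -/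
theorem hyperbolic_of_ext0 {K : Type} [Field K] {n M : ℕ} (h : n ≤ M)
    {S : Set (MvPolynomial (Fin (n + 1)) K)} (hS : ∀ F ∈ S, ∃ d, F.IsHomogeneous d)
    {F : MvPolynomial (Fin (2 * M + 1 + 1)) K} {d : ℕ} (hF : F.IsHomogeneous d) (σ : K →+* ℂ)
    (hSF : ∀ v : Fin (n + 1) → ℂ, (∀ G ∈ S, eval₂ σ v G = 0) → eval₂ σ (ext0 M v) F = 0)
    (hyp : KobayashiHyperbolic (complexPoints {F} σ)) :
    KobayashiHyperbolic (complexPoints S σ) := by
  by_contra hcon
  obtain ⟨f, hf, hX, a, b, hab⟩ := exists_entire_curve hS σ hcon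
  have hne0 : ∀ v : Fin (n + 1) → ℂ, v ≠ 0 → ext0 M v ≠ 0 := by
    intro v hv h0
    apply hv
    funext i
    rw [← ext0_incl h v i, h0]
    rfl
  refine not_kobayashi (X := complexPoints {F} σ)
    (fun z => Projectivization.mk ℂ (ext0 M (f z).rep) (hne0 _ (f z).rep_nonzero))
    ?_ ?_ a b ?_ hyp
  · intro z₀ _
    obtain ⟨g, hg, hg'⟩ := hf z₀ (mem_univ z₀)
    refine ⟨fun z => ext0 M (g z), ?_, ?_⟩
    · rw [analyticAt_pi_iff]
      intro i
      unfold ext0
      by_cases hi : (i : ℕ) < n + 1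
      · simp only [hi, dif_pos]
        exact (analyticAt_pi_iff.1 hg) ⟨i, hi⟩
      · simp only [hi, dif_neg, not_false_iff]
        exact analyticAt_const
    · filter_upwards [hg'] with z hgz
      obtain ⟨h1, h2⟩ := hgz
      obtain ⟨s, hs⟩ := Projectivization.exists_smul_eq_mk_rep ℂ (g z) h1
      refine ⟨hne0 _ h1, ?_⟩
      rw [Projectivization.mk_eq_mk_iff']
      refine ⟨s, ?_⟩
      have h3 : (f z).rep = (s : ℂ) • g z := by
        rw [h2, ← hs]
        rfl
      rw [h3]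
      funext i
      rw [Pi.smul_apply]
      unfold ext0
      split_ifs
      · rfl
      · rw [smul_zero]
  · intro z
    refine mk_mem_complexPoints (S := {F}) (fun G hG => ?_) σ _ _ ?_
    · rw [mem_singleton_iff.1 hG]
      exact ⟨d, hF⟩
    · intro G hG
      rw [mem_singleton_iff.1 hG]
      exact hSF _ (hX z)
  · intro heq
    apply hab
    rw [Projectivization.mk_eq_mk_iff'] at heq
    obtain ⟨s, hs⟩ := heq
    rw [← (f a).mk_rep, ← (f b).mk_rep, Projectivization.mk_eq_mk_iff']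
    refine ⟨s, ?_⟩
    funext i
    have := congrFun hs (incl h i)
    simp only [Pi.smul_apply] at this ⊢
    rwa [ext0_incl, ext0_incl] at this

/-- Every projective variety `X` over a number field lies in a smooth hypersurface `Y` of
arbitrarily large dimension and degree such that for all embeddings `σ` the complex variety
`Y_σ` is hyperbolic if and only if `X_σ` is. -/
theorem exists_hypersurface {K : Type} [Field K] [NumberField K] {n : ℕ}
    (S : Set (MvPolynomial (Fin (n + 1)) K)) (hS : ∀ F ∈ S, ∃ d, F.IsHomogeneous d)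
    (M : ℕ) (h : n ≤ M) (D₀ : ℕ) :
    ∃ (d : ℕ) (F : MvPolynomial (Fin (2 * M + 1 + 1)) K), D₀ ≤ d ∧ F.IsHomogeneous d ∧
      Nonsingular F ∧
      (∀ (R : Type) [Field R] (τ : K →+* R) (v : Fin (n + 1) → R),
        (∀ G ∈ S, eval₂ τ v G = 0) → eval₂ τ (ext0 M v) F = 0) ∧
      ∀ σ : K →+* ℂ, KobayashiHyperbolic (complexPoints {F} σ) ↔
        KobayashiHyperbolic (complexPoints S σ) := by
  classical
  obtain ⟨T, hTS, hTz⟩ := exists_finite_subset S
  have hT : ∀ G : T, ∃ d, G.1.IsHomogeneous d := fun G => hS G.1 (hTS G.2)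
  choose dg hdg using hT
  set e := Finset.univ.sup dg + 1 with he
  have hdge : ∀ G, dg G ≤ e := fun G => (Finset.le_sup (Finset.mem_univ G)).trans (Nat.le_succ _)
  have he1 : 1 ≤ e := by omega
  set c := Fintype.card (Fin (2 * M + 1 + 1) × (T ⊕ Fin (2 * M + 1 + 1))) with hc
  let eΓ : Fin c ≃ Fin (2 * M + 1 + 1) × (T ⊕ Fin (2 * M + 1 + 1)) := (Fintype.equivFin _).symm
  set m : Fin c → MvPolynomial (Fin (2 * M + 1 + 1)) K := fun i => baseGen h T dg e (eΓ i) with hm
  have hmh : ∀ i, (m i).IsHomogeneous e := fun i => baseGen_homogeneous h T dg hdg e hdge he1 _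
  have hcpos : 0 < c := Fintype.card_pos_iff.2 ⟨(0, Sum.inr 0)⟩
  obtain ⟨D, hD⟩ : ∃ D, c * (2 * M + 1 + 1) = D + 1 :=
    ⟨c * (2 * M + 1 + 1) - 1, (Nat.succ_pred_eq_of_pos (Nat.mul_pos hcpos (by omega))).symm⟩
  let ρ : Fin (D + 1) ≃ Fin c × Fin (2 * M + 1 + 1) := (finCongr hD.symm).trans finProdFinEquiv.symm
  set q := D + 3 * ((D + 1) * (D + 1)) with hq
  obtain ⟨τ, hτ⟩ := exists_genPts D q
  set k := q * q + D₀ + 3 with hk
  have hkq : q * (q - 2) < k := by
    have : q * (q - 2) ≤ q * q := Nat.mul_le_mul_left _ (Nat.sub_le _ _)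
    omega
  set W := sumForm k τ ρ m with hWdef
  have hW : W.IsHomogeneous ((e + 1) * k) := sumForm_homogeneous k τ ρ m hmh
  have hek : k ≤ (e + 1) * k := Nat.le_mul_of_pos_left _ (by omega)
  obtain ⟨c', hc'⟩ : ∃ c', (e + 1) * k = c' + 1 := ⟨(e + 1) * k - 1, by omega⟩
  have hc'2 : 2 ≤ c' := by omega
  rw [hc'] at hW
  obtain ⟨p, hp, hsm⟩ := exists_prime_smooth M c' hc'2 W hW
  have hhomF : ∀ l, (pairForm K M c' + C ((p : K) ^ l) * W).IsHomogeneous (c' + 1) := by
    intro l
    apply (pairForm_homogeneous K M c').add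
    have := (isHomogeneous_C (Fin (2 * M + 1 + 1)) ((p : K) ^ l)).mul hW
    rwa [zero_add] at this
  have hex : ∀ σ : K →+* ℂ, KobayashiHyperbolic (complexPoints S σ) → ∀ᶠ l : ℕ in atTop,
      KobayashiHyperbolic (complexPoints {pairForm K M c' + C ((p : K) ^ l) * W} σ) := by
    intro σ hyp
    by_contra hcon
    rw [not_eventually] at hcon
    obtain ⟨φ, hφ, hφ'⟩ := extraction_of_frequently_atTop hcon
    obtain ⟨f, hf, hfW, hne⟩ := exists_entire_curve_seq
      (X := fun l => complexPoints {pairForm K M c' + C ((p : K) ^ φ l) * W} σ)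
      (Y := complexPoints {W} σ) hφ' (fun 𝒰 h𝒰 P hP x hx hlim =>
        nrep_pair_tendsto σ (pairForm K M c') W p hp (pairForm_homogeneous K M c') hW rfl φ
          hφ.tendsto_atTop 𝒰 h𝒰 P hP x hx hlim)
    have hbase : ∀ z γ, eval₂ σ (f z).rep (baseGen h T dg e γ) = 0 := by
      intro z γ
      have h1 := sumForm_curve σ τ hτ le_rfl hkq ρ m hmh hf hfW hne (eΓ.symm γ) z
      rw [hm] at h1
      simpa using h1
    have hz := fun z => baseGen_zero h T dg e σ (f z).rep (f z).rep_nonzero (hbase z)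
    have hrec : ∀ w : Fin (2 * M + 1 + 1) → ℂ,
        (∀ j : Fin (2 * M + 1 + 1), ¬ (j : ℕ) < n + 1 → w j = 0) → w ∘ incl h = 0 → w = 0 := by
      intro w hw h0
      funext j
      by_cases hj : (j : ℕ) < n + 1
      · exact congrFun h0 ⟨j, hj⟩
      · exact hw j hj
    have hne0 : ∀ z, (f z).rep ∘ incl h ≠ 0 := fun z h0 =>
      (f z).rep_nonzero (hrec _ (hz z).1 h0)
    set f' : ℂ → PSpace ℂ n := fun z => Projectivization.mk ℂ ((f z).rep ∘ incl h) (hne0 z) with hf'
    have hhol : HolomorphicOn f' univ := by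
      intro z₀ _
      obtain ⟨g, hg, hg'⟩ := hf z₀ (mem_univ z₀)
      refine ⟨fun z => g z ∘ incl h, ?_, ?_⟩
      · rw [analyticAt_pi_iff]
        intro i
        exact (analyticAt_pi_iff.1 hg) (incl h i)
      · filter_upwards [hg'] with z hgz
        obtain ⟨h1, h2⟩ := hgz
        obtain ⟨a, ha⟩ := Projectivization.exists_smul_eq_mk_rep ℂ (g z) h1
        have h3 : (f z).rep = (a : ℂ) • g z := by
          rw [h2, ← ha]
          rfl
        have h4 : (f z).rep ∘ incl h = (a : ℂ) • (g z ∘ incl h) := by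
          rw [h3]
          rfl
        have h5 : g z ∘ incl h ≠ 0 := by
          intro h0
          apply hne0 z
          rw [h4, h0, smul_zero]
        refine ⟨h5, ?_⟩
        rw [hf']
        simp only
        rw [Projectivization.mk_eq_mk_iff']
        exact ⟨a, h4.symm⟩
    have hmem : ∀ z, f' z ∈ complexPoints S σ := fun z =>
      mk_mem_complexPoints hS σ _ (hne0 z) (hTz ℂ σ _ (hz z).2)
    obtain ⟨a, b, hab⟩ := hne
    refine not_kobayashi f' hhol hmem a b ?_ hyp
    intro heq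
    apply hab
    rw [hf'] at heq
    simp only at heq
    rw [Projectivization.mk_eq_mk_iff'] at heq
    obtain ⟨s, hs⟩ := heq
    rw [← (f a).mk_rep, ← (f b).mk_rep, Projectivization.mk_eq_mk_iff']
    refine ⟨s, ?_⟩
    rw [← sub_eq_zero]
    apply hrec
    · intro j hj
      rw [Pi.sub_apply, Pi.smul_apply, (hz a).1 j hj, (hz b).1 j hj, smul_zero, sub_zero]
    · funext i
      have := congrFun hs i
      simp only [Function.comp_apply, Pi.smul_apply, Pi.sub_apply, Pi.zero_apply] at this ⊢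
      rw [this, sub_self]
  have hall : ∀ᶠ l : ℕ in atTop, ∀ σ : K →+* ℂ, KobayashiHyperbolic (complexPoints S σ) →
      KobayashiHyperbolic (complexPoints {pairForm K M c' + C ((p : K) ^ l) * W} σ) := by
    rw [eventually_all]
    intro σ
    by_cases hyp : KobayashiHyperbolic (complexPoints S σ)
    · filter_upwards [hex σ hyp] with l hl _
      exact hl
    · exact Eventually.of_forall fun l hh => absurd hh hyp
  obtain ⟨l, hl, hl1⟩ := (hall.and (eventually_ge_atTop 1)).exists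
  have hpt : ∀ (R : Type) [Field R] (τ : K →+* R) (v : Fin (n + 1) → R),
      (∀ G ∈ S, eval₂ τ v G = 0) →
        eval₂ τ (ext0 M v) (pairForm K M c' + C ((p : K) ^ l) * W) = 0 := by
    intro R _ τ' v hv
    have h1 : eval₂ τ' (ext0 M v) W = 0 := by
      rw [hWdef, eval₂_sumForm]
      refine Finset.sum_eq_zero fun j _ => ?_
      rw [Finset.sum_eq_zero, zero_pow (by omega)]
      intro s _
      have h2 : eval₂ τ' (ext0 M v) (m (ρ s).1) = 0 :=
        baseGen_ext0 h T dg e τ' v (fun G hG => hv G (hTS hG)) _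
      rw [h2, mul_zero, zero_mul]
    have h2 : eval₂ τ' (ext0 M v) (pairForm K M c') = 0 := by
      unfold pairForm
      rw [← coe_eval₂Hom, map_sum]
      refine Finset.sum_eq_zero fun a _ => ?_
      have h3 : ext0 M v (hi M a) = 0 := by
        apply ext0_zero
        simp only [hi]
        omega
      rw [map_add, map_mul, map_mul, map_pow, map_pow, coe_eval₂Hom, eval₂_X, eval₂_X, h3,
        zero_pow (by omega)]
      ring
    rw [eval₂_add, eval₂_mul, h1, h2]
    ring
  refine ⟨c' + 1, pairForm K M c' + C ((p : K) ^ l) * W, ?_, hhomF _, hsm _ hl1, hpt, ?_⟩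
  · rw [← hc']
    omega
  · exact fun σ => ⟨hyperbolic_of_ext0 h hS (hhomF l) σ (hpt ℂ σ), hl σ⟩

/-- Finiteness passes to a subvariety. -/
theorem points_finite_of_ext0 {K : Type} [Field K] {n M : ℕ} (h : n ≤ M)
    {S : Set (MvPolynomial (Fin (n + 1)) K)}
    {F : MvPolynomial (Fin (2 * M + 1 + 1)) K} {d : ℕ} (hF : F.IsHomogeneous d)
    (hSF : ∀ v : Fin (n + 1) → K, (∀ G ∈ S, aeval v G = 0) → aeval (ext0 M v) F = 0)
    (hfin : (points {F} K).Finite) : (points S K).Finite := by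
  have hne0 : ∀ v : Fin (n + 1) → K, v ≠ 0 → ext0 M v ≠ 0 := by
    intro v hv h0
    apply hv
    funext i
    rw [← ext0_incl h v i, h0]
    rfl
  refine Set.Finite.of_injOn
    (f := fun P : PSpace K n => Projectivization.mk K (ext0 M P.rep) (hne0 _ P.rep_nonzero))
    ?_ ?_ hfin
  · intro P hP
    refine mk_mem_points (S := {F}) ?_ K _ _ ?_
    · intro G hG
      rw [mem_singleton_iff.1 hG]
      exact ⟨_, hF⟩
    · intro G hG
      rw [mem_singleton_iff.1 hG]
      exact hSF _ hP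
  · intro P _ Q _ hPQ
    simp only at hPQ
    rw [Projectivization.mk_eq_mk_iff'] at hPQ
    obtain ⟨s, hs⟩ := hPQ
    rw [← P.mk_rep, ← Q.mk_rep, Projectivization.mk_eq_mk_iff']
    refine ⟨s, ?_⟩
    funext i
    have := congrFun hs (incl h i)
    simp only [Pi.smul_apply] at this ⊢
    rwa [ext0_incl, ext0_incl] at this

end Pool.Agent.Work.MP_f82ddf_nt
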