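import Pool.Agent.Work.MP_f82ddf_nt.HF.WeilModel
import Pool.Agent.Work.MP_f82ddf_nt.Core

/-!
# Rational points of the restriction of scalars
-/

open MvPolynomial Topology Filter Set
open scoped LinearAlgebra.Projectivization Classical

namespace Pool.Agent.Work.MP_f82ddf_nt

variable {k K : Type} [Field k] [Field K] [Algebra k K] [FiniteDimensional k K] [IsGalois k K]
  {n : ℕ}

/-- The pure tensor attached to a vector. -/
noncomputable def pten (v : Fin (n + 1) → K) (J : (K ≃ₐ[k] K) → Fin (n + 1)) : K :=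
  ∏ h : K ≃ₐ[k] K, h (v (J h))

variable (k) in
/-- Its coordinates. -/
noncomputable def ycoord (v : Fin (n + 1) → K) (i : Fin (wdim k K n + 1)) : k :=
  Algebra.trace k K (om k K ((weq k K n).symm i).2 * pten v ((weq k K n).symm i).1)

theorem wval_ycoord (v : Fin (n + 1) → K) (J : (K ≃ₐ[k] K) → Fin (n + 1)) :
    wval (RingHom.id K) (fun i => algebraMap k K (ycoord k v i)) J = pten v J := by
  unfold wval ycoord
  conv_rhs => rw [← om_dual k K (pten v J)]
  refine Finset.sum_congr rfl fun b _ => ?_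
  simp only [Equiv.symm_apply_apply, RingHom.id_apply]
  rw [mul_comm]

omit [IsGalois k K] in
theorem pten_act (v : Fin (n + 1) → K) (J : (K ≃ₐ[k] K) → Fin (n + 1)) (g : K ≃ₐ[k] K) :
    g (pten v J) = pten v (act g J) := by
  unfold pten act
  rw [map_prod]
  refine Fintype.prod_equiv (Equiv.mulLeft g) _ _ fun h => ?_
  rw [Equiv.coe_mulLeft, inv_mul_cancel_left]
  rfl

omit [IsGalois k K] in
theorem pten_update (v : Fin (n + 1) → K) (J : (K ≃ₐ[k] K) → Fin (n + 1)) (h : K ≃ₐ[k] K)
    (i : Fin (n + 1)) : pten v (Function.update J h i) =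
      (∏ h' ∈ Finset.univ.erase h, h' (v (J h'))) * h (v i) := by
  unfold pten
  rw [← Finset.prod_erase_mul _ _ (Finset.mem_univ h), Function.update_self]
  congr 1
  refine Finset.prod_congr rfl fun h' hh' => ?_
  rw [Function.update_of_ne (Finset.ne_of_mem_erase hh')]

omit [IsGalois k K] in
theorem pten_eq (v : Fin (n + 1) → K) (J : (K ≃ₐ[k] K) → Fin (n + 1)) (h : K ≃ₐ[k] K) :
    pten v J = (∏ h' ∈ Finset.univ.erase h, h' (v (J h'))) * h (v (J h)) := by
  rw [← pten_update, Function.update_eq_self]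

theorem ycoord_ESet {S : Set (MvPolynomial (Fin (n + 1)) K)}
    (hS : ∀ F ∈ S, ∃ d, F.IsHomogeneous d) (v : Fin (n + 1) → K)
    (hv : ∀ F ∈ S, aeval v F = 0) {Q : MvPolynomial (Fin (wdim k K n + 1)) K} (hQ : Q ∈ ESet k S) :
    eval₂ (RingHom.id K) (fun i => algebraMap k K (ycoord k v i)) Q = 0 := by
  rcases hQ with ⟨J, b⟩ | ⟨J, J', h⟩ | ⟨F, hF, h, J⟩
  · rw [eval₂_sub, eval₂_X, ← coe_eval₂Hom, map_sum]
    simp only [coe_eval₂Hom, eval₂_mul, eval₂_C, eval₂_wform, wval_ycoord]
    rw [sub_eq_zero]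
    unfold ycoord
    rw [Equiv.symm_apply_apply, trace_eq_sum_automorphisms]
    refine Finset.sum_congr rfl fun g _ => ?_
    rw [map_mul, pten_act]
    rfl
  · rw [eval₂_sub, eval₂_mul, eval₂_mul]
    simp only [eval₂_wform, wval_ycoord]
    rw [pten_update, pten_update, pten_eq v J h, pten_eq v J' h]
    ring
  · rw [eval₂_eqn]
    simp only [wval_ycoord, pten_update]
    obtain ⟨d, hd⟩ := hS F hF
    have h1 : (fun i => (∏ h' ∈ Finset.univ.erase h, h' (v (J h'))) * h (v i)) =
        (∏ h' ∈ Finset.univ.erase h, h' (v (J h'))) • fun i => h (v i) := by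
      funext i
      rfl
    rw [h1, eval₂_smul_hom hd]
    have h2 : eval₂ ((RingHom.id K).comp (h : K →+* K)) (fun i => h (v i)) F = h (aeval v F) := by
      rw [RingHom.id_comp]
      have := eval₂_comp_left (h : K →+* K) (RingHom.id K) v F
      rw [RingHom.comp_id] at this
      exact this.symm
    rw [h2, hv F hF, map_zero, mul_zero]

theorem ycoord_QSet {S : Set (MvPolynomial (Fin (n + 1)) K)}
    (hS : ∀ F ∈ S, ∃ d, F.IsHomogeneous d) (v : Fin (n + 1) → K)
    (hv : ∀ F ∈ S, aeval v F = 0) {P : MvPolynomial (Fin (wdim k K n + 1)) k} (hP : P ∈ QSet k S) :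
    aeval (ycoord k v) P = 0 := by
  obtain ⟨α, Q, hQ, rfl⟩ := hP
  apply (algebraMap k K).injective
  rw [map_zero, aeval_def]
  have h0 : algebraMap k K (eval₂ (algebraMap k k) (ycoord k v) (trQ k α Q)) =
      eval₂ (algebraMap k K) (fun i => algebraMap k K (ycoord k v i)) (trQ k α Q) := by
    have := eval₂_comp_left (algebraMap k K) (algebraMap k k) (ycoord k v) (trQ k α Q)
    rw [this]
    rfl
  rw [h0, eval₂_trQ (algebraMap k K) (RingHom.id K) (RingHom.id_comp _)]
  refine Finset.sum_eq_zero fun g _ => ?_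
  have h1 : eval₂ ((RingHom.id K).comp (g : K →+* K)) (fun i => algebraMap k K (ycoord k v i)) Q =
      g (eval₂ (RingHom.id K) (fun i => algebraMap k K (ycoord k v i)) Q) := by
    have := eval₂_comp_left (g : K →+* K) (RingHom.id K)
      (fun i => algebraMap k K (ycoord k v i)) Q
    rw [RingHom.comp_id] at this
    rw [RingHom.id_comp]
    refine Eq.trans ?_ this.symm
    congr 1
    funext i
    exact (g.commutes (ycoord k v i)).symm
  rw [h1, ycoord_ESet hS v hv hQ, map_zero, mul_zero]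

omit [IsGalois k K] in
theorem pten_const_ne_zero {v : Fin (n + 1) → K} {i : Fin (n + 1)} (hi : v i ≠ 0) :
    pten v (fun _ : K ≃ₐ[k] K => i) ≠ 0 := by
  unfold pten
  rw [Finset.prod_ne_zero_iff]
  intro h _
  simpa using hi

theorem ycoord_ne_zero {v : Fin (n + 1) → K} (hv : v ≠ 0) : ycoord k v ≠ 0 := by
  intro h0
  obtain ⟨i, hi⟩ := Function.ne_iff.1 hv
  apply pten_const_ne_zero (k := k) hi
  rw [← wval_ycoord, h0]
  unfold wval
  refine Finset.sum_eq_zero fun b _ => ?_
  simp

theorem ycoord_inj {v w : Fin (n + 1) → K} (hv : v ≠ 0) {s : k}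
    (h : s • ycoord k w = ycoord k v) : ∃ t : K, t • w = v := by
  obtain ⟨i, hi⟩ := Function.ne_iff.1 hv
  have hJ := pten_const_ne_zero (k := k) hi
  have h1 : ∀ J : (K ≃ₐ[k] K) → Fin (n + 1), algebraMap k K s * pten w J = pten v J := by
    intro J
    rw [← wval_ycoord, ← wval_ycoord, ← wval_smul, ← h]
    congr 1
    funext j
    rw [Pi.smul_apply, Pi.smul_apply, smul_eq_mul, smul_eq_mul, map_mul]
  set A := ∏ h' ∈ Finset.univ.erase (1 : K ≃ₐ[k] K), h' (v i) with hA
  set B := ∏ h' ∈ Finset.univ.erase (1 : K ≃ₐ[k] K), h' (w i) with hB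
  have hA0 : A ≠ 0 := by
    rw [pten_eq v (fun _ : K ≃ₐ[k] K => i) 1] at hJ
    exact left_ne_zero_of_mul hJ
  refine ⟨algebraMap k K s * B / A, ?_⟩
  funext j
  have h2 := h1 (Function.update (fun _ => i) 1 j)
  rw [pten_update, pten_update] at h2
  simp only [AlgEquiv.one_apply] at h2
  rw [Pi.smul_apply, smul_eq_mul, div_mul_eq_mul_div, div_eq_iff hA0]
  linear_combination h2

/-- Finitely many rational points on the restriction of scalars. -/
theorem weil_points {S : Set (MvPolynomial (Fin (n + 1)) K)}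
    (hS : ∀ F ∈ S, ∃ d, F.IsHomogeneous d) (hfin : (points (QSet k S) k).Finite) :
    (points S K).Finite := by
  refine Set.Finite.of_injOn
    (f := fun P : PSpace K n => Projectivization.mk k (ycoord k P.rep) (ycoord_ne_zero P.rep_nonzero))
    ?_ ?_ hfin
  · intro P hP F hF
    obtain ⟨d, hd⟩ := QSet_homogeneous hS F hF
    rw [aeval_def, eval₂_rep_iff hd, ← aeval_def]
    exact ycoord_QSet hS _ hP hF
  · intro P _ Q _ hPQ
    simp only at hPQ
    rw [Projectivization.mk_eq_mk_iff'] at hPQ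
    obtain ⟨s, hs⟩ := hPQ
    obtain ⟨t, ht⟩ := ycoord_inj P.rep_nonzero hs
    rw [← P.mk_rep, ← Q.mk_rep, Projectivization.mk_eq_mk_iff']
    exact ⟨t, ht⟩

end Pool.Agent.Work.MP_f82ddf_nt
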