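import Pool.Agent.Work.MP_f82ddf_nt.HF.WeilCurve
import Pool.Agent.Work.MP_f82ddf_nt.HF.WeilPoints

/-!
# Existence of the restriction of scalars, for arbitrary finite extensions of number fields
-/

open MvPolynomial Topology Filter Set
open scoped LinearAlgebra.Projectivization

namespace Pool.Agent.Work.MP_f82ddf_nt

section base

variable {K : Type} [Field K] {n : ℕ} (S : Set (MvPolynomial (Fin (n + 1)) K))

/-- The base change of the equations. -/
def baseSet (L : Type) [Field L] [Algebra K L] : Set (MvPolynomial (Fin (n + 1)) L) :=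
  (fun F => map (algebraMap K L) F) '' S

variable {S}

theorem baseSet_homogeneous (hS : ∀ F ∈ S, ∃ d, F.IsHomogeneous d) (L : Type) [Field L]
    [Algebra K L] : ∀ F ∈ baseSet S L, ∃ d, F.IsHomogeneous d := by
  rintro _ ⟨F, hF, rfl⟩
  obtain ⟨d, hd⟩ := hS F hF
  exact ⟨d, hd.map _⟩

theorem complexPoints_baseSet (L : Type) [Field L] [Algebra K L] (τ : L →+* ℂ) :
    complexPoints (baseSet S L) τ = complexPoints S (τ.comp (algebraMap K L)) := by
  ext P
  constructor
  · intro hP F hF
    have := hP _ ⟨F, hF, rfl⟩
    simpa only [eval₂_map] using this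
  · rintro hP _ ⟨F, hF, rfl⟩
    have := hP F hF
    simpa only [eval₂_map] using this

theorem points_baseSet (L E : Type) [Field L] [Algebra K L] [Field E] [Algebra L E]
    [Algebra K E] [IsScalarTower K L E] : points (baseSet S L) E = points S E := by
  ext P
  constructor
  · intro hP F hF
    have := hP _ ⟨F, hF, rfl⟩
    simpa only [aeval_map_algebraMap] using this
  · rintro hP _ ⟨F, hF, rfl⟩
    have := hP F hF
    simpa only [aeval_map_algebraMap] using this

/-- Finiteness passes to a smaller field. -/
theorem points_finite_of_le (hS : ∀ F ∈ S, ∃ d, F.IsHomogeneous d) (L : Type) [Field L]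
    [Algebra K L] (hfin : (points S L).Finite) : (points S K).Finite := by
  have hinj := (algebraMap K L).injective
  have hne0 : ∀ v : Fin (n + 1) → K, v ≠ 0 → (fun i => algebraMap K L (v i)) ≠ 0 := by
    intro v hv h0
    apply hv
    funext i
    exact hinj (by rw [congrFun h0 i, Pi.zero_apply, Pi.zero_apply, map_zero])
  refine Set.Finite.of_injOn
    (f := fun P : PSpace K n => Projectivization.mk L _ (hne0 P.rep P.rep_nonzero))
    ?_ ?_ hfin
  · intro P hP
    refine mk_mem_points hS L _ _ fun F hF => ?_
    have h1 := eval₂_comp_left (algebraMap K L) (algebraMap K K) P.rep F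
    have h2 : eval₂ (algebraMap K K) P.rep F = 0 := hP F hF
    rw [h2, map_zero] at h1
    rw [aeval_def]
    exact h1.symm
  · intro P _ Q _ hPQ
    simp only at hPQ
    rw [Projectivization.mk_eq_mk_iff'] at hPQ
    obtain ⟨s, hs⟩ := hPQ
    rw [← P.mk_rep, ← Q.mk_rep, Projectivization.mk_eq_mk_iff']
    obtain ⟨i, hi⟩ := Function.ne_iff.1 Q.rep_nonzero
    have hi' : algebraMap K L (Q.rep i) ≠ 0 := fun h0 => hi (hinj (by rw [h0, Pi.zero_apply, map_zero]))
    refine ⟨P.rep i / Q.rep i, ?_⟩
    funext j
    apply hinj
    have h1 := congrFun hs i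
    have h2 := congrFun hs j
    simp only [Pi.smul_apply, smul_eq_mul] at h1 h2 ⊢
    rw [map_mul, map_div₀, ← h1, ← h2]
    field_simp

end base

/-- Restriction of scalars: for finite extensions `L/K/k` of fields of characteristic zero and a
projective variety `X` over `K` there is a projective variety `X'` over `k` such that `X'_ρ` is
hyperbolic for each embedding `ρ` of `k` such that `X_σ` is hyperbolic for all embeddings `σ` of
`K` extending `ρ`, and `X(L)` is finite if `X'(k)` is finite. -/
theorem exists_weil (k : Type) [Field k] [CharZero k] {K : Type} [Field K] [Algebra k K]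
    [FiniteDimensional k K] {n : ℕ} (S : Set (MvPolynomial (Fin (n + 1)) K))
    (hS : ∀ F ∈ S, ∃ e, F.IsHomogeneous e) (L : Type) [Field L] [Algebra K L]
    [FiniteDimensional K L] :
    ∃ (m : ℕ) (S' : Set (MvPolynomial (Fin (m + 1)) k)), (∀ F ∈ S', ∃ e, F.IsHomogeneous e) ∧
      (∀ ρ : k →+* ℂ, (∀ σ : K →+* ℂ, σ.comp (algebraMap k K) = ρ →
        KobayashiHyperbolic (complexPoints S σ)) → KobayashiHyperbolic (complexPoints S' ρ)) ∧
      ((points S' k).Finite → (points S L).Finite) := by
  let _ : Algebra k L := ((algebraMap K L).comp (algebraMap k K)).toAlgebra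
  have _ : IsScalarTower k K L := IsScalarTower.of_algebraMap_eq fun x => rfl
  have _ : FiniteDimensional k L := FiniteDimensional.trans k K L
  let E := IntermediateField.normalClosure k L (AlgebraicClosure L)
  have _ : Algebra.IsAlgebraic k (AlgebraicClosure L) := Algebra.IsAlgebraic.trans k L _
  have _ : IsAlgClosure k (AlgebraicClosure L) := ⟨inferInstance, inferInstance⟩
  have _ : Normal k (AlgebraicClosure L) := IsAlgClosure.normal k _
  have _ : Normal k E := normalClosure.normal k L _
  have _ : FiniteDimensional k E := normalClosure.is_finiteDimensional k L _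
  have _ : IsGalois k E := ⟨⟩
  have hSL := baseSet_homogeneous hS L
  have hSE := baseSet_homogeneous hSL E
  refine ⟨wdim k E n, QSet k (baseSet (baseSet S L) E), QSet_homogeneous hSE, ?_, ?_⟩
  · intro ρ hyp
    apply weil_hyperbolic hSE ρ
    intro τ hτ
    rw [complexPoints_baseSet, complexPoints_baseSet]
    apply hyp
    rw [← hτ]
    ext x
    simp only [RingHom.comp_apply]
    congr 1
  · intro hfin
    rw [← points_baseSet L L]
    apply points_finite_of_le hSL E
    rw [← points_baseSet E E]
    exact weil_points (k := k) hSE hfin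

/-- Restriction of scalars from a number field to the field of rational numbers. -/
theorem exists_weil_rat {K : Type} [Field K] [NumberField K] {n : ℕ}
    (S : Set (MvPolynomial (Fin (n + 1)) K)) (hS : ∀ F ∈ S, ∃ e, F.IsHomogeneous e) :
    ∃ (m : ℕ) (S' : Set (MvPolynomial (Fin (m + 1)) ℚ)), (∀ F ∈ S', ∃ e, F.IsHomogeneous e) ∧
      ((∀ σ : K →+* ℂ, KobayashiHyperbolic (complexPoints S σ)) →
        KobayashiHyperbolic (complexPoints S' (algebraMap ℚ ℂ))) ∧
      ((points S' ℚ).Finite → (points S K).Finite) := by
  obtain ⟨m, S', h1, h2, h3⟩ := exists_weil ℚ S hS K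
  exact ⟨m, S', h1, fun hyp => h2 _ fun σ _ => hyp σ, h3⟩

end Pool.Agent.Work.MP_f82ddf_nt
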