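import Pool.Agent.Work.MP_f82ddf_nt.HF.Defs
import Pool.Agent.Work.MP_f82ddf_nt.HF.Main
import Pool.Agent.Work.MP_f82ddf_nt.HF.WeilExists

/-!
# The reductions to smooth hypersurfaces
-/

open MvPolynomial Topology Filter Set
open scoped LinearAlgebra.Projectivization

namespace Pool.Agent.Work.MP_f82ddf_nt

theorem zeroExtend_eq {R : Type*} [Zero R] {n : ℕ} (M : ℕ) (v : Fin (n + 1) → R) :
    (zeroExtend (2 * M + 1) v : Fin (2 * M + 1 + 1) → R) = ext0 M v := rfl

/-- Reduction to the rational points of smooth hypersurfaces. -/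
theorem hf_of_hypersurfaces (k : Type) [Field k] [NumberField k] (ρ : k →+* ℂ) (N₀ : ℕ)
    (D₀ : ℕ → ℕ)
    (H : ∀ (n d : ℕ) (F : MvPolynomial (Fin (n + 1)) k),
      N₀ ≤ n → D₀ n ≤ d → F.IsHomogeneous d → Nonsingular F →
        KobayashiHyperbolic (complexPoints {F} ρ) → (points {F} k).Finite)
    (K : Type) [Field K] [Algebra k K] [FiniteDimensional k K] (n : ℕ)
    (S : Set (MvPolynomial (Fin (n + 1)) K)) (hS : ∀ F ∈ S, ∃ d, F.IsHomogeneous d)
    (hyp : ∀ σ : K →+* ℂ, σ.comp (algebraMap k K) = ρ →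
      KobayashiHyperbolic (complexPoints S σ)) (L : Type) [Field L]
    [Algebra K L] [FiniteDimensional K L] : (points S L).Finite := by
  obtain ⟨m, S', hS', hh, hp⟩ := exists_weil k S hS L
  obtain ⟨d, F, h1, h2, h3, h4, h5⟩ := exists_hypersurface S' hS' (max m N₀) (le_max_left _ _)
    (D₀ (2 * max m N₀ + 1))
  apply hp
  refine points_finite_of_ext0 (le_max_left _ _) h2 (fun v hv => h4 k (algebraMap k k) v hv) ?_
  exact H _ d F (by have := le_max_right m N₀; omega) h1 h2 h3 ((h5 _).2 (hh ρ hyp))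

/-- The equivalence. -/
theorem hyperbolic_finite_reduction (k : Type) [Field k] [NumberField k] (ρ : k →+* ℂ) (N₀ : ℕ)
    (D₀ : ℕ → ℕ) :
    (∀ (n d : ℕ) (F : MvPolynomial (Fin (n + 1)) k), N₀ ≤ n → D₀ n ≤ d → F.IsHomogeneous d →
        Nonsingular F → KobayashiHyperbolic (complexPoints {F} ρ) → (points {F} k).Finite) ↔
      ∀ (K : Type) [Field K] [Algebra k K] [FiniteDimensional k K] (n : ℕ)
        (S : Set (MvPolynomial (Fin (n + 1)) K)), (∀ G ∈ S, ∃ e, G.IsHomogeneous e) →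
        (∀ σ : K →+* ℂ, σ.comp (algebraMap k K) = ρ →
          KobayashiHyperbolic (complexPoints S σ)) →
        ∀ (L : Type) [Field L] [Algebra K L] [FiniteDimensional K L], (points S L).Finite := by
  constructor
  · intro H K _ _ _ n S hS hyp L _ _ _
    exact hf_of_hypersurfaces k ρ N₀ D₀ H K n S hS hyp L
  · intro H n d F _ _ hF _ hyp
    refine H k n {F} (fun G hG => by rw [mem_singleton_iff.1 hG]; exact ⟨d, hF⟩) (fun σ hσ => ?_) k
    rw [Algebra.algebraMap_self, RingHom.comp_id] at hσ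
    rwa [hσ]

end Pool.Agent.Work.MP_f82ddf_nt
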