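import Pool.Agent.Work.MP_f82ddf_nt.Brody.Brody

/-!
# Brody's theorem for a sequence of subsets of projective space
-/

open Topology Filter Metric Set MvPolynomial
open scoped LinearAlgebra.Projectivization ComplexConjugate ENNReal

namespace Pool.Agent.Work.MP_f82ddf_nt

variable {n : ℕ}

/-- **Brody's theorem for a sequence**: if the sets `X N` are not hyperbolic and all their limit
points lie in `Y`, then there is a nonconstant entire curve in `Y`. -/
theorem exists_entire_curve_seq {X : ℕ → Set (PSpace ℂ n)} {Y : Set (PSpace ℂ n)}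
    (hX : ∀ N, ¬ KobayashiHyperbolic (X N))
    (hlim : ∀ 𝒰 : Ultrafilter ℕ, (𝒰 : Filter ℕ) ≤ atTop → ∀ p : ℕ → PSpace ℂ n,
      (∀ᶠ N in (𝒰 : Filter ℕ), p N ∈ X N) → ∀ (x : Fin (n + 1) → ℂ) (hx : x ≠ 0),
      Tendsto (fun N => nrep (p N)) 𝒰 (𝓝 x) → Projectivization.mk ℂ x hx ∈ Y) :
    ∃ f : ℂ → PSpace ℂ n, HolomorphicOn f univ ∧ (∀ z, f z ∈ Y) ∧ ∃ a b, f a ≠ f b := by
  classical
  have hex : ∀ N : ℕ, ∃ h : ℂ → PSpace ℂ n, HolomorphicOn h (ball 0 1) ∧ MapsTo h (ball 0 1) (X N) ∧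
      (N : ℝ) < sp h 0 := by
    intro N
    by_contra hcon
    push Not at hcon
    exact hX N (kobayashi_of_bounded (C := N) hcon)
  choose h hhol hmaps hbig using hex
  have hsub : closedBall (0 : ℂ) (1 / 2) ⊆ ball 0 1 := closedBall_subset_ball (by norm_num)
  have hsp0 : ∀ N, 0 < sp (h N) 0 := fun N => lt_of_le_of_lt (Nat.cast_nonneg N) (hbig N)
  choose z hz hρz hρle hzb using fun N : ℕ =>
    exists_rescale (ρ := sp (h N)) (c := 0) (r := 1 / 2) (by norm_num)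
      (fun y hy => (sp_continuousAt (hhol N y (hsub hy))).continuousWithinAt)
      (fun y _ => sp_nonneg _ _) (hsp0 N)
  set l : ℕ → ℂ := fun N => (((sp (h N) (z N))⁻¹ : ℝ) : ℂ) with hl
  have hlnorm : ∀ N, ‖l N‖ = (sp (h N) (z N))⁻¹ := by
    intro N
    rw [hl]
    simp only [Complex.norm_real, Real.norm_eq_abs, abs_inv, abs_of_pos (hρz N)]
  set g : ℕ → ℂ → PSpace ℂ n := fun N ζ => h N (z N + l N * ζ) with hg
  set R : ℕ → ℝ := fun N => sp (h N) 0 / 4 with hRdef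
  have hR : Tendsto R atTop atTop := by
    refine tendsto_atTop_mono (fun N => ?_)
      (tendsto_natCast_atTop_atTop.atTop_div_const (by norm_num : (0 : ℝ) < 4))
    rw [hRdef]
    have := (hbig N).le
    simp only
    linarith
  have hin : ∀ N ζ, ‖ζ‖ ≤ R N → z N + l N * ζ ∈ ball (0 : ℂ) (1 / 2) ∧
      sp (h N) (z N + l N * ζ) ≤ 2 * sp (h N) (z N) := by
    intro N ζ hζ
    apply hzb N
    rw [dist_eq_norm, add_sub_cancel_left, norm_mul, hlnorm, inv_mul_le_iff₀ (hρz N)]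
    refine hζ.trans (le_of_eq ?_)
    have := (hρz N).ne'
    rw [hRdef]
    field_simp
    norm_num
  have haff : ∀ N ζ, AnalyticAt ℂ (fun ζ : ℂ => z N + l N * ζ) ζ := by
    intro N ζ
    fun_prop
  have hgl : ∀ N ζ, ‖ζ‖ ≤ R N → ∃ G, IsLift (g N) G ζ := by
    intro N ζ hζ
    obtain ⟨G, hG⟩ := hhol N (z N + l N * ζ) (hsub (ball_subset_closedBall (hin N ζ hζ).1))
    exact ⟨_, IsLift.comp (haff N ζ) hG⟩
  have hder : ∀ N ζ, ‖deriv (fun ζ : ℂ => z N + l N * ζ) ζ‖ = (sp (h N) (z N))⁻¹ := by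
    intro N ζ
    have h1 : HasDerivAt (fun ζ : ℂ => z N + l N * ζ) (l N) ζ := by
      simpa using ((hasDerivAt_id ζ).const_mul (l N)).const_add (z N)
    rw [h1.deriv, hlnorm]
  have hspg : ∀ N ζ, ‖ζ‖ ≤ R N → sp (g N) ζ = (sp (h N) (z N))⁻¹ * sp (h N) (z N + l N * ζ) := by
    intro N ζ hζ
    rw [hg]
    simp only
    rw [sp_comp (haff N ζ) (hhol N _ (hsub (ball_subset_closedBall (hin N ζ hζ).1))), hder]
  have hgsp : ∀ N ζ, ‖ζ‖ ≤ R N → sp (g N) ζ ≤ 2 := by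
    intro N ζ hζ
    rw [hspg N ζ hζ, inv_mul_le_iff₀ (hρz N)]
    linarith [(hin N ζ hζ).2]
  have hR0 : ∀ N, 0 ≤ R N := fun N => by
    rw [hRdef]
    have := (hsp0 N).le
    simp only
    linarith
  have hg1 : ∀ N, sp (g N) 0 = 1 := by
    intro N
    rw [hspg N 0 (by rw [norm_zero]; exact hR0 N), mul_zero, add_zero,
      inv_mul_cancel₀ (hρz N).ne']
  set 𝒰 : Ultrafilter ℕ := hyperfilter ℕ with h𝒰
  have h𝒰top : (𝒰 : Filter ℕ) ≤ atTop := by
    rw [← Nat.cofinite_eq_atTop]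
    exact hyperfilter_le_cofinite
  obtain ⟨x, hx1, hxt, hloc⟩ := exists_limit 𝒰 h𝒰top R hR g hgl hgsp
  have hx0 : ∀ y, x y ≠ 0 := fun y => by
    rw [← norm_pos_iff, hx1]
    exact one_pos
  set f : ℂ → PSpace ℂ n := fun y => Projectivization.mk ℂ (x y) (hx0 y) with hf
  have hflift : ∀ z₀, IsLift f (fun y i => (ip (x z₀) (x y))⁻¹ * x y i) z₀ := by
    intro z₀
    obtain ⟨r, hr, H, hH1, hH2, hH3, hH4⟩ := hloc z₀
    have hmemb : z₀ ∈ ball z₀ r := mem_ball_self hr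
    refine ⟨?_, ?_⟩
    · rw [analyticAt_pi_iff]
      intro i
      exact ((hH2 i).differentiableOn (Eventually.of_forall fun N => hH3 N i)
        isOpen_ball).analyticAt (isOpen_ball.mem_nhds hmemb)
    · filter_upwards [isOpen_ball.mem_nhds hmemb] with y hy
      have h1 : (fun i => (ip (x z₀) (x y))⁻¹ * x y i) = (ip (x z₀) (x y))⁻¹ • x y := by
        funext i
        rfl
      rw [h1]
      refine ⟨smul_ne_zero (inv_ne_zero (hH4 y hy)) (hx0 y), ?_⟩
      rw [hf]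
      simp only
      rw [Projectivization.mk_eq_mk_iff']
      exact ⟨ip (x z₀) (x y), by rw [smul_smul, mul_inv_cancel₀ (hH4 y hy), one_smul]⟩
  refine ⟨f, fun z₀ _ => ⟨_, hflift z₀⟩, ?_, ?_⟩
  · intro y
    refine hlim 𝒰 h𝒰top (fun N => g N y) ?_ (x y) (hx0 y) (hxt y)
    filter_upwards [(hR.eventually_ge_atTop ‖y‖).filter_mono h𝒰top] with N hN
    exact hmaps N (hsub (ball_subset_closedBall (hin N y hN).1))
  · by_contra hcon
    push Not at hcon
    obtain ⟨r, hr, H, hH1, hH2, hH3, hH4⟩ := hloc 0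
    have hmemb : (0 : ℂ) ∈ ball (0 : ℂ) r := mem_ball_self hr
    have hG0 : (fun (y : ℂ) i => (ip (x 0) (x y))⁻¹ * x y i) 0 ≠ 0 := (hflift 0).ne
    have h1 := sd_tendsto isOpen_ball hH2 hH3 hmemb hG0
    have h2 : Tendsto (fun N => sd (H N) 0) 𝒰 (𝓝 1) := by
      refine tendsto_const_nhds.congr' ?_
      filter_upwards [hH1] with N hN
      rw [← sp_eq (hN 0 hmemb), hg1]
    have h3 := tendsto_nhds_unique h1 h2
    rw [← sp_eq (hflift 0)] at h3
    have h4 : IsLift f (fun _ => (f 0).rep) 0 := by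
      refine ⟨analyticAt_const, Eventually.of_forall fun y => ⟨(f 0).rep_nonzero, ?_⟩⟩
      rw [(f 0).mk_rep]
      exact hcon y 0
    rw [sp_eq h4] at h3
    unfold sd at h3
    rw [deriv_const] at h3
    simp only [Pi.zero_apply, mul_zero, sub_zero] at h3
    have h5 : ‖fun _ : Fin (n + 1) × Fin (n + 1) => (0 : ℂ)‖ = 0 := by
      rw [norm_eq_zero]
      rfl
    rw [h5, zero_div] at h3
    exact zero_ne_one h3

end Pool.Agent.Work.MP_f82ddf_nt
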