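import Pool.Agent.Work.MP_f82ddf_nt.Defs

/-!
# Extension of a vector by zeros
-/

namespace Pool.Agent.Work.MP_f82ddf_nt

/-- The vector `(v_0, ..., v_n, 0, ..., 0)` with `N + 1` entries (for `n ≤ N`): the linear
embedding of `n`-space in `N`-space. -/
def zeroExtend {R : Type*} [Zero R] {n : ℕ} (N : ℕ) (v : Fin (n + 1) → R) : Fin (N + 1) → R :=
  fun i => if h : (i : ℕ) < n + 1 then v ⟨i, h⟩ else 0

end Pool.Agent.Work.MP_f82ddf_nt
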