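import Pool.Agent.Work.MP_f82ddf_nt.HF.BrodySeq
import Pool.Agent.Work.MP_f82ddf_nt.HF.Good
import Pool.Agent.Work.MP_f82ddf_nt.Red.Curve

/-!
# The forms used to embed a projective variety in a smooth hypersurface
-/

open MvPolynomial Topology Filter Set
open scoped LinearAlgebra.Projectivization

namespace Pool.Agent.Work.MP_f82ddf_nt

/-- Finitely many of the equations suffice. -/
theorem exists_finite_subset {K : Type} [Field K] {n : ℕ}
    (S : Set (MvPolynomial (Fin (n + 1)) K)) :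
    ∃ T : Finset (MvPolynomial (Fin (n + 1)) K), (T : Set (MvPolynomial (Fin (n + 1)) K)) ⊆ S ∧
      ∀ (R : Type) [Field R] (σ : K →+* R) (v : Fin (n + 1) → R),
        (∀ F ∈ T, eval₂ σ v F = 0) → ∀ F ∈ S, eval₂ σ v F = 0 := by
  obtain ⟨T, hT, hspan⟩ := (Submodule.fg_span_iff_fg_span_finset_subset S).1
    (IsNoetherian.noetherian (Submodule.span (MvPolynomial (Fin (n + 1)) K) S))
  refine ⟨T, hT, fun R _ σ v h F hF => ?_⟩
  have h1 : F ∈ Ideal.span (T : Set (MvPolynomial (Fin (n + 1)) K)) := by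
    have h2 : F ∈ Submodule.span (MvPolynomial (Fin (n + 1)) K) S := Submodule.subset_span hF
    rw [hspan] at h2
    exact h2
  have h3 : Ideal.span (T : Set (MvPolynomial (Fin (n + 1)) K)) ≤
      RingHom.ker (eval₂Hom σ v) := by
    rw [Ideal.span_le]
    intro G hG
    exact h G hG
  exact h3 h1

/-- The inclusion of the first variables. -/
def incl {n M : ℕ} (h : n ≤ M) (i : Fin (n + 1)) : Fin (2 * M + 1 + 1) := ⟨i, by omega⟩

/-- Extension of a vector by zero. -/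
def ext0 {R : Type*} [Zero R] {n : ℕ} (M : ℕ) (v : Fin (n + 1) → R) : Fin (2 * M + 1 + 1) → R :=
  fun i => if h : (i : ℕ) < n + 1 then v ⟨i, h⟩ else 0

theorem ext0_incl {R : Type*} [Zero R] {n M : ℕ} (h : n ≤ M) (v : Fin (n + 1) → R)
    (i : Fin (n + 1)) : ext0 M v (incl h i) = v i := by
  unfold ext0 incl
  exact dif_pos i.2

theorem ext0_zero {R : Type*} [Zero R] {n M : ℕ} (v : Fin (n + 1) → R)
    (i : Fin (2 * M + 1 + 1)) (hi : ¬ (i : ℕ) < n + 1) : ext0 M v i = 0 := by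
  unfold ext0
  simp [hi]

section gens

variable {K : Type} [Field K] {n M : ℕ}

/-- The generators of the ideal of the variety in the larger space. -/
noncomputable def baseGen (h : n ≤ M) (T : Finset (MvPolynomial (Fin (n + 1)) K)) (dg : T → ℕ)
    (e : ℕ) : Fin (2 * M + 1 + 1) × (T ⊕ Fin (2 * M + 1 + 1)) →
      MvPolynomial (Fin (2 * M + 1 + 1)) K
  | (l, Sum.inl G) => X l ^ (e - dg G) * rename (incl h) G.1
  | (l, Sum.inr j) => if (j : ℕ) < n + 1 then 0 else X l ^ (e - 1) * X j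

theorem baseGen_inl (h : n ≤ M) (T : Finset (MvPolynomial (Fin (n + 1)) K)) (dg : T → ℕ)
    (e : ℕ) (l : Fin (2 * M + 1 + 1)) (G : T) :
    baseGen h T dg e (l, Sum.inl G) = X l ^ (e - dg G) * rename (incl h) G.1 := rfl

theorem baseGen_inr (h : n ≤ M) (T : Finset (MvPolynomial (Fin (n + 1)) K)) (dg : T → ℕ)
    (e : ℕ) (l j : Fin (2 * M + 1 + 1)) :
    baseGen h T dg e (l, Sum.inr j) = if (j : ℕ) < n + 1 then 0 else X l ^ (e - 1) * X j := rfl

theorem baseGen_homogeneous (h : n ≤ M) (T : Finset (MvPolynomial (Fin (n + 1)) K)) (dg : T → ℕ)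
    (hdg : ∀ G : T, G.1.IsHomogeneous (dg G)) (e : ℕ) (he : ∀ G, dg G ≤ e) (he1 : 1 ≤ e)
    (c : Fin (2 * M + 1 + 1) × (T ⊕ Fin (2 * M + 1 + 1))) :
    (baseGen h T dg e c).IsHomogeneous e := by
  obtain ⟨l, G | j⟩ := c
  · have h1 := ((isHomogeneous_X K l).pow (e - dg G)).mul
      ((hdg G).rename_isHomogeneous (f := incl (M := M) h))
    have h2 : 1 * (e - dg G) + dg G = e := by have := he G; omega
    rw [h2] at h1
    exact h1
  · rw [baseGen_inr]
    split_ifs with hj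
    · exact isHomogeneous_zero _ _ _
    · have h1 := ((isHomogeneous_X K l).pow (e - 1)).mul (isHomogeneous_X K j)
      have h2 : 1 * (e - 1) + 1 = e := by omega
      rw [h2] at h1
      exact h1

/-- The common zeros of the generators. -/
theorem baseGen_zero (h : n ≤ M) (T : Finset (MvPolynomial (Fin (n + 1)) K)) (dg : T → ℕ)
    (e : ℕ) {R : Type} [Field R] (σ : K →+* R) (w : Fin (2 * M + 1 + 1) → R) (hw : w ≠ 0)
    (hz : ∀ c, eval₂ σ w (baseGen h T dg e c) = 0) :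
    (∀ j : Fin (2 * M + 1 + 1), ¬ (j : ℕ) < n + 1 → w j = 0) ∧
      ∀ G ∈ T, eval₂ σ (w ∘ incl h) G = 0 := by
  obtain ⟨l, hl⟩ : ∃ l, w l ≠ 0 := by
    by_contra hcon
    push Not at hcon
    exact hw (funext hcon)
  constructor
  · intro j hj
    have h1 := hz (l, Sum.inr j)
    rw [baseGen_inr, if_neg hj, eval₂_mul, eval₂_pow, eval₂_X, eval₂_X] at h1
    exact (mul_eq_zero.1 h1).resolve_left (pow_ne_zero _ hl)
  · intro G hG
    have h1 := hz (l, Sum.inl ⟨G, hG⟩)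
    rw [baseGen_inl, eval₂_mul, eval₂_pow, eval₂_X, eval₂_rename] at h1
    exact (mul_eq_zero.1 h1).resolve_left (pow_ne_zero _ hl)

theorem baseGen_ext0 (h : n ≤ M) (T : Finset (MvPolynomial (Fin (n + 1)) K)) (dg : T → ℕ)
    (e : ℕ) {R : Type} [Field R] (σ : K →+* R) (v : Fin (n + 1) → R)
    (hv : ∀ G ∈ T, eval₂ σ v G = 0) (c : Fin (2 * M + 1 + 1) × (T ⊕ Fin (2 * M + 1 + 1))) :
    eval₂ σ (ext0 M v) (baseGen h T dg e c) = 0 := by
  obtain ⟨l, G | j⟩ := c
  · rw [baseGen_inl, eval₂_mul, eval₂_rename]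
    have h1 : ext0 M v ∘ incl h = v := funext fun i => ext0_incl h v i
    rw [h1, hv G.1 G.2, mul_zero]
  · rw [baseGen_inr]
    split_ifs with hj
    · exact eval₂_zero _ _
    · rw [eval₂_mul, eval₂_X, ext0_zero v j hj, mul_zero]

end gens

section sum

variable {K : Type} [Field K] {N D c q : ℕ}

/-- The form `∑_j (∑_s τ_j^s x_{i(s)} m_{c(s)})^k`. -/
noncomputable def sumForm (k : ℕ) (τ : Fin q → ℚ) (ρ : Fin (D + 1) ≃ Fin c × Fin (N + 1))
    (m : Fin c → MvPolynomial (Fin (N + 1)) K) : MvPolynomial (Fin (N + 1)) K :=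
  ∑ j, (∑ s : Fin (D + 1), C ((τ j : K) ^ (s : ℕ)) * (X (ρ s).2 * m (ρ s).1)) ^ k

theorem sumForm_homogeneous (k : ℕ) (τ : Fin q → ℚ) (ρ : Fin (D + 1) ≃ Fin c × Fin (N + 1))
    (m : Fin c → MvPolynomial (Fin (N + 1)) K) {e : ℕ} (hm : ∀ i, (m i).IsHomogeneous e) :
    (sumForm k τ ρ m).IsHomogeneous ((e + 1) * k) := by
  unfold sumForm
  apply IsHomogeneous.sum
  intro j _
  apply IsHomogeneous.pow
  apply IsHomogeneous.sum
  intro s _
  have h1 := (isHomogeneous_C (Fin (N + 1)) ((τ j : K) ^ (s : ℕ))).mul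
    ((isHomogeneous_X K (ρ s).2).mul (hm (ρ s).1))
  have h2 : 0 + (1 + e) = e + 1 := by omega
  rw [h2] at h1
  exact h1

theorem eval₂_sumForm (k : ℕ) (τ : Fin q → ℚ) (ρ : Fin (D + 1) ≃ Fin c × Fin (N + 1))
    (m : Fin c → MvPolynomial (Fin (N + 1)) K) {R : Type} [Field R] (σ : K →+* R)
    (v : Fin (N + 1) → R) :
    eval₂ σ v (sumForm k τ ρ m) =
      ∑ j, (∑ s : Fin (D + 1), (v (ρ s).2 * eval₂ σ v (m (ρ s).1)) * (τ j : R) ^ (s : ℕ)) ^ k := by
  unfold sumForm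
  simp only [← coe_eval₂Hom]
  rw [map_sum]
  refine Finset.sum_congr rfl fun j _ => ?_
  rw [map_pow, map_sum]
  congr 1
  refine Finset.sum_congr rfl fun s _ => ?_
  rw [map_mul, map_mul, coe_eval₂Hom, eval₂_C, eval₂_X, map_pow, map_ratCast]
  ring

end sum

end Pool.Agent.Work.MP_f82ddf_nt
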