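import Pool.Agent.Work.MP_f82ddf_nt.Brody.Brody

/-!
# Restriction of scalars for projective varieties over a Galois number field
-/

open MvPolynomial Topology Filter Set
open scoped LinearAlgebra.Projectivization

namespace Pool.Agent.Work.MP_f82ddf_nt

section exchange

variable {G ι R : Type*} [Fintype G] [DecidableEq G] [DecidableEq ι] [Field R]

/-- The exchange relations of a pure tensor. -/
def Exch (T : (G → ι) → R) : Prop :=
  ∀ J J' h, T J * T J' = T (Function.update J h (J' h)) * T (Function.update J' h (J h))

theorem Exch.prop {T T' : (G → ι) → R} (hT : Exch T) (hT' : Exch T') {J₁ : G → ι}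
    (h1 : T J₁ ≠ 0) (h1' : T' J₁ ≠ 0)
    (hh : ∀ h i, T (Function.update J₁ h i) * T' J₁ = T' (Function.update J₁ h i) * T J₁) :
    ∀ J, T J * T' J₁ = T' J * T J₁ := by
  have key : ∀ m : ℕ, ∀ J : G → ι, (Finset.univ.filter fun h => J h ≠ J₁ h).card ≤ m →
      T J * T' J₁ = T' J * T J₁ := by
    intro m
    induction m with
    | zero =>
      intro J hJ
      have : J = J₁ := by
        funext h
        by_contra hne
        have h2 : h ∈ Finset.univ.filter fun h => J h ≠ J₁ h := by simp [hne]
        rw [Finset.card_eq_zero.1 (Nat.le_zero.1 hJ)] at h2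
        exact absurd h2 (Finset.notMem_empty h)
      rw [this, mul_comm]
    | succ m ih =>
      intro J hJ
      by_cases hall : ∀ h, J h = J₁ h
      · have : J = J₁ := funext hall
        rw [this, mul_comm]
      · push Not at hall
        obtain ⟨h, hne⟩ := hall
        have h2 := ih (Function.update J h (J₁ h)) (by
          have h3 : (Finset.univ.filter fun g => Function.update J h (J₁ h) g ≠ J₁ g) ⊂
              (Finset.univ.filter fun g => J g ≠ J₁ g) := by
            rw [Finset.ssubset_iff_of_subset]
            · refine ⟨h, by simp [hne], by simp⟩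
            · intro g hg
              simp only [Finset.mem_filter, Finset.mem_univ, true_and] at hg ⊢
              by_cases hgh : g = h
              · rw [hgh] at hg
                simp at hg
              · rwa [Function.update_of_ne hgh] at hg
          have := Finset.card_lt_card h3
          omega)
        have e1 := hT J J₁ h
        have e2 := hT' J J₁ h
        have e3 := hh h (J h)
        have e4 : T J * T' J₁ * (T J₁ * T' J₁) = T' J * T J₁ * (T J₁ * T' J₁) := by
          calc T J * T' J₁ * (T J₁ * T' J₁) = (T J * T J₁) * T' J₁ * T' J₁ := by ring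
            _ = (T (Function.update J h (J₁ h)) * T' J₁) *
                (T (Function.update J₁ h (J h)) * T' J₁) := by rw [e1]; ring
            _ = (T' (Function.update J h (J₁ h)) * T J₁) *
                (T' (Function.update J₁ h (J h)) * T J₁) := by rw [h2, e3]
            _ = (T' J * T' J₁) * T J₁ * T J₁ := by rw [e2]; ring
            _ = T' J * T J₁ * (T J₁ * T' J₁) := by ring
        exact mul_right_cancel₀ (mul_ne_zero h1 h1') e4
  exact fun J => key _ J le_rfl

/-- Moving a nonvanishing entry. -/
theorem exch_move {T : (G → ι) → R} {J₁ : G → ι}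
    (hmove : ∀ h J, T J ≠ 0 → T (Function.update J h (J₁ h)) ≠ 0) {J : G → ι} (hJ : T J ≠ 0) :
    T J₁ ≠ 0 := by
  have key : ∀ m : ℕ, ∀ J : G → ι, (Finset.univ.filter fun h => J h ≠ J₁ h).card ≤ m →
      T J ≠ 0 → T J₁ ≠ 0 := by
    intro m
    induction m with
    | zero =>
      intro J hJ h0
      have : J = J₁ := by
        funext h
        by_contra hne
        have h2 : h ∈ Finset.univ.filter fun h => J h ≠ J₁ h := by simp [hne]
        rw [Finset.card_eq_zero.1 (Nat.le_zero.1 hJ)] at h2
        exact absurd h2 (Finset.notMem_empty h)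
      rwa [this] at h0
    | succ m ih =>
      intro J hJ h0
      by_cases hall : ∀ h, J h = J₁ h
      · have : J = J₁ := funext hall
        rwa [this] at h0
      · push Not at hall
        obtain ⟨h, hne⟩ := hall
        refine ih (Function.update J h (J₁ h)) ?_ (hmove h J h0)
        have h3 : (Finset.univ.filter fun g => Function.update J h (J₁ h) g ≠ J₁ g) ⊂
            (Finset.univ.filter fun g => J g ≠ J₁ g) := by
          rw [Finset.ssubset_iff_of_subset]
          · refine ⟨h, by simp [hne], by simp⟩
          · intro g hg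
            simp only [Finset.mem_filter, Finset.mem_univ, true_and] at hg ⊢
            by_cases hgh : g = h
            · rw [hgh] at hg
              simp at hg
            · rwa [Function.update_of_ne hgh] at hg
        have := Finset.card_lt_card h3
        omega
  exact key _ J le_rfl hJ

end exchange

section trace

variable {k K : Type} [Field k] [Field K] [Algebra k K] [FiniteDimensional k K] {N : ℕ}

variable (k) in
/-- The trace of `α Q`, coefficient by coefficient. -/
noncomputable def trQ (α : K) (Q : MvPolynomial (Fin (N + 1)) K) :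
    MvPolynomial (Fin (N + 1)) k :=
  ∑ m ∈ Q.support, monomial m (Algebra.trace k K (α * coeff m Q))

omit [FiniteDimensional k K] in
theorem trQ_homogeneous (α : K) {Q : MvPolynomial (Fin (N + 1)) K} {d : ℕ}
    (hQ : Q.IsHomogeneous d) : (trQ k α Q).IsHomogeneous d := by
  unfold trQ
  apply IsHomogeneous.sum
  intro m hm
  apply isHomogeneous_monomial
  have h1 := hQ (mem_support_iff.1 hm)
  rw [Finsupp.degree_eq_weight_one]
  exact h1

variable [IsGalois k K]

theorem eval₂_trQ {R : Type} [Field R] (ρ : k →+* R) (τ : K →+* R)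
    (hτ : τ.comp (algebraMap k K) = ρ) (z : Fin (N + 1) → R) (α : K)
    (Q : MvPolynomial (Fin (N + 1)) K) :
    eval₂ ρ z (trQ k α Q) =
      ∑ g : K ≃ₐ[k] K, τ (g α) * eval₂ (τ.comp (g : K →+* K)) z Q := by
  have hτ : ∀ x : k, ρ x = τ (algebraMap k K x) := fun x => by rw [← hτ]; rfl
  unfold trQ
  rw [← coe_eval₂Hom, map_sum]
  have h1 : ∀ g : K ≃ₐ[k] K, eval₂ (τ.comp (g : K →+* K)) z Q =
      ∑ m ∈ Q.support, τ (g (coeff m Q)) * ∏ i, z i ^ m i := by
    intro g
    rw [eval₂_eq']
    rfl
  simp only [h1, Finset.mul_sum]
  rw [Finset.sum_comm]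
  refine Finset.sum_congr rfl fun m _ => ?_
  rw [coe_eval₂Hom, eval₂_monomial, hτ, trace_eq_sum_automorphisms, map_sum, Finset.sum_mul,
    Finsupp.prod_fintype _ _ (fun i => pow_zero _)]
  refine Finset.sum_congr rfl fun g _ => ?_
  rw [map_mul, map_mul]
  ring

theorem eval₂_of_trQ (ρ : k →+* ℂ) (τ : K →+* ℂ) (hτ : τ.comp (algebraMap k K) = ρ)
    (z : Fin (N + 1) → ℂ) (Q : MvPolynomial (Fin (N + 1)) K)
    (h : ∀ α : K, eval₂ ρ z (trQ k α Q) = 0) : eval₂ τ z Q = 0 := by
  classical
  have hinj : Function.Injective fun g : K ≃ₐ[k] K =>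
      ((τ.comp (g : K →+* K) : K →+* ℂ) : K →* ℂ) := by
    intro g g' hgg
    ext x
    have h1 : τ (g x) = τ (g' x) := DFunLike.congr_fun hgg x
    exact τ.injective h1
  have hli := (linearIndependent_monoidHom K ℂ).comp _ hinj
  rw [Fintype.linearIndependent_iff] at hli
  have h1 := hli (fun g => eval₂ (τ.comp (g : K →+* K)) z Q) (by
    funext α
    have h2 := h α
    rw [eval₂_trQ ρ τ hτ z α Q] at h2
    rw [Finset.sum_apply]
    simp only [Function.comp_apply, Pi.smul_apply, smul_eq_mul, Pi.zero_apply]
    rw [← h2]
    refine Finset.sum_congr rfl fun g _ => ?_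
    rw [mul_comm]
    rfl) 1
  exact h1

end trace

end Pool.Agent.Work.MP_f82ddf_nt
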