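import Pool.Agent.Work.MP_f82ddf_nt.HF.WeilModel
import Pool.Agent.Work.MP_f82ddf_nt.Core

/-!
# Entire curves in the restriction of scalars
-/

open MvPolynomial Topology Filter Set
open scoped LinearAlgebra.Projectivization Classical

namespace Pool.Agent.Work.MP_f82ddf_nt

variable {k K : Type} [Field k] [Field K] [Algebra k K] [FiniteDimensional k K] [IsGalois k K]
  {n : ℕ}

theorem wval_ne_zero {R : Type*} [Field R] {S : Set (MvPolynomial (Fin (n + 1)) K)} (τ : K →+* R)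
    {y : Fin (wdim k K n + 1) → R} (hy : ∀ Q ∈ ESet k S, eval₂ τ y Q = 0) (hy0 : y ≠ 0) :
    ∃ J, wval τ y J ≠ 0 := by
  by_contra hcon
  push Not at hcon
  apply hy0
  funext i
  obtain ⟨⟨J, b⟩, rfl⟩ := (weq k K n).surjective i
  rw [(wval_facts τ hy).1 J b, Pi.zero_apply]
  refine Finset.sum_eq_zero fun g _ => ?_
  rw [hcon, mul_zero]

/-- The factor at `h` of a pure tensor with a nonvanishing entry `J`. -/
theorem slice_ne_zero {R : Type*} [Field R] (τ : K →+* R) (y : Fin (wdim k K n + 1) → R)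
    (h : K ≃ₐ[k] K) {J : (K ≃ₐ[k] K) → Fin (n + 1)} (hJ : wval τ y J ≠ 0) :
    (fun i => wval τ y (Function.update J h i)) ≠ 0 := by
  intro h0
  apply hJ
  have := congrFun h0 (J h)
  simpa using this

theorem slice_prop {R : Type*} [Field R] {S : Set (MvPolynomial (Fin (n + 1)) K)} (τ : K →+* R)
    {y : Fin (wdim k K n + 1) → R} (hy : ∀ Q ∈ ESet k S, eval₂ τ y Q = 0) (h : K ≃ₐ[k] K)
    {J J' : (K ≃ₐ[k] K) → Fin (n + 1)} (hJ : wval τ y J ≠ 0) (hJ' : wval τ y J' ≠ 0) :
    Projectivization.mk R _ (slice_ne_zero τ y h hJ) =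
      Projectivization.mk R _ (slice_ne_zero τ y h hJ') := by
  rw [Projectivization.mk_eq_mk_iff']
  have h2 := (wval_facts τ hy).2.1
  refine ⟨wval τ y (Function.update J h (J' h)) / wval τ y J', ?_⟩
  funext i
  have h3 := h2 (Function.update J h i) J' h
  rw [Function.update_idem, Function.update_self] at h3
  rw [Pi.smul_apply, smul_eq_mul, div_mul_eq_mul_div, div_eq_iff hJ']
  exact h3.symm

/-- The restriction of scalars of a variety all of whose conjugates are hyperbolic contains no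
nonconstant entire curve. -/
theorem weil_curve {S : Set (MvPolynomial (Fin (n + 1)) K)}
    (hS : ∀ F ∈ S, ∃ d, F.IsHomogeneous d) (τ : K →+* ℂ)
    (hyp : ∀ h : K ≃ₐ[k] K,
      KobayashiHyperbolic (complexPoints S (τ.comp ((h : K ≃ₐ[k] K) : K →+* K))))
    {f : ℂ → PSpace ℂ (wdim k K n)} (hf : HolomorphicOn f univ)
    (hmem : ∀ z, ∀ Q ∈ ESet k S, eval₂ τ (f z).rep Q = 0) (a b : ℂ) : f a = f b := by
  choose J hJ using fun z => wval_ne_zero τ (hmem z) (f z).rep_nonzero
  set φ : (K ≃ₐ[k] K) → ℂ → PSpace ℂ n := fun h z =>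
    Projectivization.mk ℂ _ (slice_ne_zero τ (f z).rep h (hJ z)) with hφ
  have hφeq : ∀ h z (J' : (K ≃ₐ[k] K) → Fin (n + 1)) (hJ' : wval τ (f z).rep J' ≠ 0),
      φ h z = Projectivization.mk ℂ _ (slice_ne_zero τ (f z).rep h hJ') := fun h z J' hJ' =>
    slice_prop τ (hmem z) h (hJ z) hJ'
  have hφX : ∀ h z, φ h z ∈ complexPoints S (τ.comp ((h : K ≃ₐ[k] K) : K →+* K)) := by
    intro h z F hF
    obtain ⟨d, hd⟩ := hS F hF
    rw [hφ]
    simp only
    rw [eval₂_rep_iff hd]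
    exact (wval_facts τ (hmem z)).2.2 F hF h (J z)
  have hφhol : ∀ h, HolomorphicOn (φ h) univ := by
    intro h z₀ _
    obtain ⟨g, hg, hg'⟩ := hf z₀ (mem_univ z₀)
    have hval : ∀ J', AnalyticAt ℂ (fun z => wval τ (g z) J') z₀ := by
      intro J'
      unfold wval
      apply Finset.analyticAt_fun_sum
      intro c _
      exact analyticAt_const.mul ((analyticAt_pi_iff.1 hg) _)
    have hscale : ∀ᶠ z in 𝓝 z₀, ∃ s : ℂ, s ≠ 0 ∧ (f z).rep = s • g z := by
      filter_upwards [hg'] with z hz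
      obtain ⟨h1, h2⟩ := hz
      obtain ⟨s, hs⟩ := Projectivization.exists_smul_eq_mk_rep ℂ (g z) h1
      refine ⟨s, s.ne_zero, ?_⟩
      rw [h2, ← hs]
      rfl
    have hJ0 : wval τ (g z₀) (J z₀) ≠ 0 := by
      obtain ⟨s, hs, hs'⟩ := hscale.self_of_nhds
      have h1 := hJ z₀
      rw [hs', wval_smul] at h1
      exact right_ne_zero_of_mul h1
    refine ⟨fun z i => wval τ (g z) (Function.update (J z₀) h i), ?_, ?_⟩
    · rw [analyticAt_pi_iff]
      intro i
      exact hval _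
    · have hne : ∀ᶠ z in 𝓝 z₀, wval τ (g z) (J z₀) ≠ 0 :=
        (hval (J z₀)).continuousAt.eventually_ne hJ0
      filter_upwards [hscale, hne] with z hz hz'
      obtain ⟨s, hs, hs'⟩ := hz
      have h1 : wval τ (f z).rep (J z₀) ≠ 0 := by
        rw [hs', wval_smul]
        exact mul_ne_zero hs hz'
      refine ⟨slice_ne_zero τ (g z) h hz', ?_⟩
      rw [hφeq h z (J z₀) h1, Projectivization.mk_eq_mk_iff']
      refine ⟨s, ?_⟩
      funext i
      rw [Pi.smul_apply, smul_eq_mul, hs', wval_smul]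
  have hconst : ∀ h, φ h a = φ h b := by
    intro h
    by_contra hne
    exact not_kobayashi (φ h) (hφhol h) (hφX h) a b hne (hyp _)
  set J₁ := J a with hJ₁
  have hprop : ∀ (h : K ≃ₐ[k] K) (J' : (K ≃ₐ[k] K) → Fin (n + 1)), wval τ (f b).rep J' ≠ 0 →
      ∃ s : ℂ, ∀ i, wval τ (f a).rep (Function.update J₁ h i) =
        s * wval τ (f b).rep (Function.update J' h i) := by
    intro h J' hJ'
    have h1 := hconst h
    rw [hφeq h a J₁ (hJ a), hφeq h b J' hJ', Projectivization.mk_eq_mk_iff'] at h1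
    obtain ⟨s, hs⟩ := h1
    exact ⟨s, fun i => (congrFun hs i).symm⟩
  have hJ₁b : wval τ (f b).rep J₁ ≠ 0 := by
    refine exch_move (T := wval τ (f b).rep) (fun h J' hJ' => ?_) (hJ b)
    obtain ⟨s, hs⟩ := hprop h J' hJ'
    have h1 := hs (J₁ h)
    rw [Function.update_eq_self] at h1
    intro h0
    rw [h0, mul_zero] at h1
    exact hJ a h1
  have hall := Exch.prop (T := wval τ (f a).rep) (T' := wval τ (f b).rep)
    (wval_facts τ (hmem a)).2.1 (wval_facts τ (hmem b)).2.1 (hJ a) hJ₁b (by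
      intro h i
      obtain ⟨s, hs⟩ := hprop h J₁ hJ₁b
      have h1 := hs (J₁ h)
      rw [Function.update_eq_self] at h1
      rw [hs i, ← hJ₁, h1]
      ring)
  rw [← (f a).mk_rep, ← (f b).mk_rep, Projectivization.mk_eq_mk_iff']
  refine ⟨wval τ (f a).rep J₁ / wval τ (f b).rep J₁, ?_⟩
  funext i
  obtain ⟨⟨J', c⟩, rfl⟩ := (weq k K n).surjective i
  rw [Pi.smul_apply, smul_eq_mul, (wval_facts τ (hmem a)).1 J' c, (wval_facts τ (hmem b)).1 J' c,
    Finset.mul_sum]
  refine Finset.sum_congr rfl fun g _ => ?_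
  rw [div_mul_eq_mul_div, div_eq_iff hJ₁b]
  linear_combination (-τ (g (om k K c))) * hall (act g J')

/-- The restriction of scalars of a variety all of whose conjugates over `ρ` are hyperbolic is
hyperbolic. -/
theorem weil_hyperbolic {S : Set (MvPolynomial (Fin (n + 1)) K)}
    (hS : ∀ F ∈ S, ∃ d, F.IsHomogeneous d) (ρ : k →+* ℂ)
    (hyp : ∀ σ : K →+* ℂ, σ.comp (algebraMap k K) = ρ →
      KobayashiHyperbolic (complexPoints S σ)) :
    KobayashiHyperbolic (complexPoints (QSet k S) ρ) := by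
  let _ : Algebra k ℂ := ρ.toAlgebra
  let τ₀ : K →ₐ[k] ℂ := IsAlgClosed.lift
  let τ : K →+* ℂ := τ₀
  have hτ : τ.comp (algebraMap k K) = ρ := by
    ext x
    exact τ₀.commutes x
  by_contra hcon
  obtain ⟨f, hf, hX, a, b, hab⟩ := exists_entire_curve (QSet_homogeneous hS) _ hcon
  refine hab (weil_curve (k := k) hS τ (fun h => hyp _ ?_) hf (fun z Q hQ =>
    eval₂_of_trQ ρ τ hτ _ Q fun α => hX z _ ⟨α, Q, hQ, rfl⟩) a b)
  ext x
  have h1 : ((h : K ≃ₐ[k] K) : K →+* K) (algebraMap k K x) = algebraMap k K x := h.commutes x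
  rw [RingHom.comp_apply, RingHom.comp_apply, h1, ← RingHom.comp_apply, hτ]

end Pool.Agent.Work.MP_f82ddf_nt
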