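import Pool.Agent.Work.MP_f82ddf_nt.HF.Weil

/-!
# The projective model of the restriction of scalars
-/

open MvPolynomial Topology Filter Set
open scoped LinearAlgebra.Projectivization

namespace Pool.Agent.Work.MP_f82ddf_nt

variable (k K : Type) [Field k] [Field K] [Algebra k K] [FiniteDimensional k K] [IsGalois k K]

theorem exists_dual : ∃ ω ω' : Fin (Module.finrank k K) → K,
    ∀ x : K, ∑ b, (algebraMap k K (Algebra.trace k K (ω b * x))) * ω' b = x := by
  classical
  let B := Module.finBasis k K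
  have hB := traceForm_nondegenerate k K
  refine ⟨B, (Algebra.traceForm k K).dualBasis hB B, fun x => ?_⟩
  conv_rhs => rw [← ((Algebra.traceForm k K).dualBasis hB B).sum_repr x]
  refine Finset.sum_congr rfl fun b _ => ?_
  rw [LinearMap.BilinForm.dualBasis_repr_apply, Algebra.traceForm_apply, Algebra.smul_def,
    mul_comm x]

/-- The first family. -/
noncomputable def om (b : Fin (Module.finrank k K)) : K := (exists_dual k K).choose b

/-- The dual family. -/
noncomputable def om' (b : Fin (Module.finrank k K)) : K :=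
  (exists_dual k K).choose_spec.choose b

theorem om_dual (x : K) :
    ∑ b, (algebraMap k K (Algebra.trace k K (om k K b * x))) * om' k K b = x :=
  (exists_dual k K).choose_spec.choose_spec x

/-- The index set of the coordinates of the restriction of scalars. -/
abbrev WIdx (n : ℕ) : Type := ((K ≃ₐ[k] K) → Fin (n + 1)) × Fin (Module.finrank k K)

instance (n : ℕ) : Nonempty (WIdx k K n) :=
  ⟨(fun _ => 0, ⟨0, Module.finrank_pos⟩)⟩

instance (n : ℕ) : Finite (WIdx k K n) := by
  unfold WIdx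
  infer_instance

/-- The dimension of the projective space. -/
noncomputable def wdim (n : ℕ) : ℕ := Nat.card (WIdx k K n) - 1

omit [IsGalois k K] in
theorem wdim_succ (n : ℕ) : Nat.card (WIdx k K n) = wdim k K n + 1 := by
  unfold wdim
  have : 0 < Nat.card (WIdx k K n) := Nat.card_pos
  omega

/-- Enumeration of the coordinates. -/
noncomputable def weq (n : ℕ) : WIdx k K n ≃ Fin (wdim k K n + 1) :=
  (Finite.equivFin (WIdx k K n)).trans (finCongr (wdim_succ k K n))

variable {k K} {n : ℕ}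

/-- The action on the multi-indices. -/
def act (g : K ≃ₐ[k] K) (J : (K ≃ₐ[k] K) → Fin (n + 1)) : (K ≃ₐ[k] K) → Fin (n + 1) :=
  fun h => J (g⁻¹ * h)

/-- The linear form `w_J = ∑_b ω'_b y_{J, b}`. -/
noncomputable def wform (J : (K ≃ₐ[k] K) → Fin (n + 1)) :
    MvPolynomial (Fin (wdim k K n + 1)) K :=
  ∑ b, C (om' k K b) * X (weq k K n (J, b))

open Classical in
/-- The equations over `K` of the restriction of scalars. -/
inductive ESet (k : Type) {K : Type} [Field k] [Field K] [Algebra k K] [FiniteDimensional k K]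
    [IsGalois k K] {n : ℕ} (S : Set (MvPolynomial (Fin (n + 1)) K)) :
    Set (MvPolynomial (Fin (wdim k K n + 1)) K)
  | lin (J : (K ≃ₐ[k] K) → Fin (n + 1)) (b : Fin (Module.finrank k K)) :
      ESet k S (X (weq k K n (J, b)) - ∑ g : K ≃ₐ[k] K, C (g (om k K b)) * wform (act g J))
  | exch (J J' : (K ≃ₐ[k] K) → Fin (n + 1)) (h : K ≃ₐ[k] K) :
      ESet k S (wform J * wform J' -
        wform (Function.update J h (J' h)) * wform (Function.update J' h (J h)))
  | eqn (F : MvPolynomial (Fin (n + 1)) K) (hF : F ∈ S) (h : K ≃ₐ[k] K)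
      (J : (K ≃ₐ[k] K) → Fin (n + 1)) :
      ESet k S (aeval (fun i => wform (Function.update J h i)) (map (h : K →+* K) F))

/-- The equations over the base field. -/
def QSet (k : Type) {K : Type} [Field k] [Field K] [Algebra k K] [FiniteDimensional k K]
    [IsGalois k K] {n : ℕ} (S : Set (MvPolynomial (Fin (n + 1)) K)) : Set (MvPolynomial (Fin (wdim k K n + 1)) k) :=
  {P | ∃ (α : K) (Q : MvPolynomial (Fin (wdim k K n + 1)) K), Q ∈ ESet k S ∧ P = trQ k α Q}

theorem wform_homogeneous (J : (K ≃ₐ[k] K) → Fin (n + 1)) :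
    (wform J : MvPolynomial (Fin (wdim k K n + 1)) K).IsHomogeneous 1 := by
  unfold wform
  apply IsHomogeneous.sum
  intro b _
  have := (isHomogeneous_C (Fin (wdim k K n + 1)) (om' k K b)).mul
    (isHomogeneous_X K (weq k K n (J, b)))
  rwa [zero_add] at this

theorem aeval_homogeneous {σ τ : Type*} {R : Type*} [CommRing R] {F : MvPolynomial σ R} {d : ℕ}
    (hF : F.IsHomogeneous d) (f : σ → MvPolynomial τ R) (hf : ∀ i, (f i).IsHomogeneous 1) :
    (aeval f F).IsHomogeneous d := by
  have := hF.aeval (φ := F) (n := 1) f hf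
  rwa [one_mul] at this

theorem ESet_homogeneous {S : Set (MvPolynomial (Fin (n + 1)) K)}
    (hS : ∀ F ∈ S, ∃ d, F.IsHomogeneous d) {Q : MvPolynomial (Fin (wdim k K n + 1)) K}
    (hQ : Q ∈ ESet k S) : ∃ d, Q.IsHomogeneous d := by
  rcases hQ with ⟨J, b⟩ | ⟨J, J', h⟩ | ⟨F, hF, h, J⟩
  · refine ⟨1, (isHomogeneous_X _ _).sub (IsHomogeneous.sum _ _ _ fun g _ => ?_)⟩
    have := (isHomogeneous_C (Fin (wdim k K n + 1)) (g (om k K b))).mul (wform_homogeneous (act g J))
    rwa [zero_add] at this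
  · exact ⟨2, ((wform_homogeneous _).mul (wform_homogeneous _)).sub
      ((wform_homogeneous _).mul (wform_homogeneous _))⟩
  · obtain ⟨d, hd⟩ := hS F hF
    exact ⟨d, aeval_homogeneous (hd.map _) _ fun i => wform_homogeneous _⟩

theorem QSet_homogeneous {S : Set (MvPolynomial (Fin (n + 1)) K)}
    (hS : ∀ F ∈ S, ∃ d, F.IsHomogeneous d) : ∀ P ∈ QSet k S, ∃ d, P.IsHomogeneous d := by
  rintro P ⟨α, Q, hQ, rfl⟩
  obtain ⟨d, hd⟩ := ESet_homogeneous hS hQ
  exact ⟨d, trQ_homogeneous α hd⟩

/-- The value of the linear form `w_J`. -/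
noncomputable def wval {R : Type*} [Field R] (τ : K →+* R) (y : Fin (wdim k K n + 1) → R)
    (J : (K ≃ₐ[k] K) → Fin (n + 1)) : R := ∑ b, τ (om' k K b) * y (weq k K n (J, b))

theorem eval₂_wform {R : Type*} [Field R] (τ : K →+* R) (y : Fin (wdim k K n + 1) → R)
    (J : (K ≃ₐ[k] K) → Fin (n + 1)) : eval₂ τ y (wform J) = wval τ y J := by
  unfold wform wval
  rw [← coe_eval₂Hom, map_sum]
  refine Finset.sum_congr rfl fun b _ => ?_
  rw [map_mul, coe_eval₂Hom, eval₂_C, eval₂_X]

theorem wval_smul {R : Type*} [Field R] (τ : K →+* R) (a : R) (y : Fin (wdim k K n + 1) → R)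
    (J : (K ≃ₐ[k] K) → Fin (n + 1)) : wval τ (a • y) J = a * wval τ y J := by
  unfold wval
  rw [Finset.mul_sum]
  refine Finset.sum_congr rfl fun b _ => ?_
  rw [Pi.smul_apply, smul_eq_mul]
  ring

theorem eval₂_eqn {R : Type*} [Field R] (τ : K →+* R) (y : Fin (wdim k K n + 1) → R)
    (T : Fin (n + 1) → (K ≃ₐ[k] K) → Fin (n + 1)) (h : K ≃ₐ[k] K)
    (F : MvPolynomial (Fin (n + 1)) K) :
    eval₂ τ y (aeval (fun i => wform (T i)) (map (h : K →+* K) F)) =
      eval₂ (τ.comp (h : K →+* K)) (fun i => wval τ y (T i)) F := by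
  rw [aeval_def, eval₂_map, ← coe_eval₂Hom (f := τ), ← coe_eval₂Hom, ← coe_eval₂Hom,
    ← RingHom.comp_apply]
  apply RingHom.congr_fun
  apply MvPolynomial.ringHom_ext
  · intro x
    simp [algebraMap_eq]
  · intro i
    simp [eval₂_wform]

theorem wval_facts {R : Type*} [Field R] {S : Set (MvPolynomial (Fin (n + 1)) K)} (τ : K →+* R)
    {y : Fin (wdim k K n + 1) → R} (hy : ∀ Q ∈ ESet k S, eval₂ τ y Q = 0) :
    (∀ J b, y (weq k K n (J, b)) = ∑ g : K ≃ₐ[k] K, τ (g (om k K b)) * wval τ y (act g J)) ∧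
    (∀ J J' h, wval τ y J * wval τ y J' =
      wval τ y (open Classical in Function.update J h (J' h)) *
        wval τ y (open Classical in Function.update J' h (J h))) ∧
    (∀ F ∈ S, ∀ h J, eval₂ (τ.comp ((h : K ≃ₐ[k] K) : K →+* K))
      (fun i => wval τ y (open Classical in Function.update J h i)) F = 0) := by
  refine ⟨?_, ?_, ?_⟩
  · intro J b
    have h1 := hy _ (ESet.lin J b)
    rw [← coe_eval₂Hom, map_sub, map_sum] at h1
    rw [sub_eq_zero] at h1
    rw [coe_eval₂Hom, eval₂_X] at h1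
    rw [h1]
    refine Finset.sum_congr rfl fun g _ => ?_
    rw [eval₂_mul, eval₂_C, eval₂_wform]
  · intro J J' h
    have h1 := hy _ (ESet.exch J J' h)
    rw [eval₂_sub, eval₂_mul, eval₂_mul, sub_eq_zero] at h1
    simpa only [eval₂_wform] using h1
  · intro F hF h J
    have h1 := hy _ (ESet.eqn F hF h J)
    rwa [eval₂_eqn] at h1

end Pool.Agent.Work.MP_f82ddf_nt
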